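import Pool.Agent.MP_86c931_ag.H30.Spec

/-! The objects of the counterexample. -/

namespace Pool.Agent.MP_86c931_ag.H30

open AlgebraicGeometry CategoryTheory TopologicalSpace Opposite
open scoped PowerSeries TensorProduct

/-- Polynomial functions `ℂ[x,y]` on the plane. -/
abbrev P : Type := MvPolynomial (Fin 2) ℂ

/-- The subalgebra `ℂ + (x,y)^2` of polynomials whose differential vanishes at the origin. -/
noncomputable def R : Subalgebra ℂ P where
  carrier := {f | ∀ i, MvPolynomial.constantCoeff (MvPolynomial.pderiv i f) = 0}
  mul_mem' := by
    intro f g hf hg i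
    simp only [Set.mem_ofPred_eq] at hf hg
    simp [Derivation.leibniz, hf i, hg i]
  add_mem' := by
    intro f g hf hg i
    simp only [Set.mem_ofPred_eq] at hf hg
    simp [hf i, hg i]
  algebraMap_mem' := by
    intro c i
    simp

/-- the coordinate ring of the plane as an object of the category of rings -/
noncomputable abbrev PC : CommRingCat.{0} := CommRingCat.of P

/-- The symplectic plane. -/
noncomputable abbrev Y : Scheme := Spec PC

/-- The singular Poisson variety. -/
noncomputable abbrev Sing : Scheme := Spec (CommRingCat.of R)

/-- The field `ℂ((h)) = ℂ⟦h⟧[h⁻¹]`. -/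
abbrev K : Type := Localization.Away (PowerSeries.X : ℂ⟦X⟧)

end Pool.Agent.MP_86c931_ag.H30
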