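import Mathlib

/-! Sections of the structure sheaf of an integral affine scheme inside the function field. -/

namespace Pool.Agent.MP_86c931_ag.H30

open AlgebraicGeometry CategoryTheory TopologicalSpace Opposite

variable {A : CommRingCat.{0}}

/-- restriction of functions -/
noncomputable def rs {U V : (Spec A).Opens} (i : V ≤ U) : Γ(Spec A, U) →+* Γ(Spec A, V) :=
  ((Spec A).presheaf.map (homOfLE i).op).hom

/-- elements of the ring as sections -/
noncomputable def fnHom (U : (Spec A).Opens) : A →+* Γ(Spec A, U) :=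
  algebraMap A Γ(Spec A, U)

lemma rs_rs {U V W : (Spec A).Opens} (i : V ≤ U) (j : W ≤ V) (s : Γ(Spec A, U)) :
    rs j (rs i s) = rs (j.trans i) s := by
  show ((Spec A).presheaf.map (homOfLE j).op).hom (((Spec A).presheaf.map (homOfLE i).op).hom s) = _
  rw [← CommRingCat.comp_apply, ← Functor.map_comp]
  rfl

lemma rs_self {U : (Spec A).Opens} (s : Γ(Spec A, U)) : rs le_rfl s = s := by
  show ((Spec A).presheaf.map (homOfLE le_rfl).op).hom s = s
  have : (homOfLE (le_rfl : U ≤ U)).op = 𝟙 _ := rfl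
  rw [this, CategoryTheory.Functor.map_id]
  rfl

lemma fnHom_eq (U : (Spec A).Opens) (f : A) :
    fnHom U f = rs le_top ((Scheme.ΓSpecIso A).inv f) := rfl

lemma rs_fn {U V : (Spec A).Opens} (i : V ≤ U) (f : A) : rs i (fnHom U f) = fnHom V f := by
  rw [fnHom_eq, rs_rs, fnHom_eq]

lemma fn_top_bij : Function.Bijective (fnHom (A := A) ⊤) := by
  have : fnHom ⊤ = (Scheme.ΓSpecIso A).inv.hom := by
    ext1 c
    rw [fnHom_eq]
    exact rs_self _
  rw [this]
  exact ConcreteCategory.bijective_of_isIso (Scheme.ΓSpecIso A).inv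

/-- basic opens -/
noncomputable def D (g : A) : (Spec A).Opens := PrimeSpectrum.basicOpen g

lemma frac_of_D (g : A) (s : Γ(Spec A, D g)) :
    ∃ (n : ℕ) (f : A), s * fnHom _ g ^ n = fnHom _ f := by
  obtain ⟨⟨f, b⟩, hb⟩ := IsLocalization.surj (R := A) (Submonoid.powers g)
    (S := Γ(Spec A, PrimeSpectrum.basicOpen g)) s
  obtain ⟨n, hn⟩ := b.2
  refine ⟨n, f, ?_⟩
  rw [← map_pow]
  simp only at hn hb
  rw [hn]
  exact hb

lemma exists_D {U : (Spec A).Opens} {y : Spec A} (hy : y ∈ U) : ∃ g : A, y ∈ D g ∧ D g ≤ U := by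
  obtain ⟨_, ⟨_, ⟨g, rfl⟩, rfl⟩, h1, h2⟩ :=
    (PrimeSpectrum.isBasis_basic_opens (R := A)).exists_subset_of_mem_open hy U.2
  exact ⟨g, h1, h2⟩

lemma D_mul (f g : A) : D (f * g) = D f ⊓ D g := PrimeSpectrum.basicOpen_mul f g

lemma ne_zero_of_mem_D {g : A} {y : Spec A} (h : y ∈ D g) : g ≠ 0 := by
  rintro rfl
  exact h (Ideal.zero_mem _)

/-- a family of basic opens covering the spectrum has a finite subfamily generating the unit
ideal -/
lemma finite_cover (g : Spec A → A) (hg : ∀ y, y ∈ D (g y)) :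
    ∃ s : Finset (Spec A), (∀ y, ∃ z ∈ s, y ∈ D (g z)) ∧
      ∀ N : ℕ, ∃ a : Spec A → A, ∑ z ∈ s, a z * g z ^ N = 1 := by
  classical
  obtain ⟨s, hs⟩ := (isCompact_univ (X := Spec A)).elim_finite_subcover
    (fun y => (D (g y) : Set (Spec A))) (fun y => (D (g y)).isOpen)
    (fun y _ => Set.mem_iUnion.2 ⟨y, hg y⟩)
  have hc : ∀ y, ∃ z ∈ s, y ∈ D (g z) := fun y => by
    simpa using hs (Set.mem_univ y)
  refine ⟨s, hc, fun N => ?_⟩
  have : Ideal.span (Set.range fun z : s => g z ^ N) = ⊤ := by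
    by_contra hne
    obtain ⟨m, hm, hle⟩ := Ideal.exists_le_maximal _ hne
    obtain ⟨z, hz, hy⟩ := hc ⟨m, hm.isPrime⟩
    exact hy (hm.isPrime.mem_of_pow_mem N (hle (Ideal.subset_span ⟨⟨z, hz⟩, rfl⟩)))
  obtain ⟨c, hc⟩ := Ideal.mem_span_range_iff_exists_fun.1 (this ▸ Submodule.mem_top : (1 : A) ∈ _)
  refine ⟨fun z => if h : z ∈ s then c ⟨z, h⟩ else 0, ?_⟩
  rw [← hc, ← Finset.sum_coe_sort s]
  refine Finset.sum_congr rfl fun z _ => ?_
  simp

variable [IsDomain A]

variable (A) in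
/-- the function field -/
noncomputable abbrev F : Type := (Spec A).functionField

variable (A) in
/-- the generic point -/
noncomputable abbrev gp : Spec A := genericPoint (Spec A)

lemma gen_mem {U : (Spec A).Opens} {y : Spec A} (h : y ∈ U) : gp A ∈ U :=
  ((genericPoint_spec (Spec A)).mem_open_set_iff U.isOpen).mpr ⟨y, trivial, h⟩

/-- embedding in the function field -/
noncomputable def emb (U : (Spec A).Opens) (h : gp A ∈ U) : Γ(Spec A, U) →+* F A :=
  ((Spec A).presheaf.germ U (gp A) h).hom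

lemma emb_inj (U : (Spec A).Opens) (h : gp A ∈ U) : Function.Injective (emb U h) :=
  germ_injective_of_isIntegral (Spec A) _ h

lemma emb_rs {U V : (Spec A).Opens} (i : V ≤ U) (h : gp A ∈ V) (s : Γ(Spec A, U)) :
    emb V h (rs i s) = emb U (i h) s :=
  TopCat.Presheaf.germ_res_apply (Spec A).presheaf (homOfLE i) _ h s

lemma ext_emb {U : (Spec A).Opens} {s t : Γ(Spec A, U)} (H : ∀ h, emb U h s = emb U h t) :
    s = t := by
  by_cases h : gp A ∈ U
  · exact emb_inj U h (H h)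
  · have : U = ⊥ := by
      rw [eq_bot_iff]
      intro y hy
      exact (h (gen_mem hy)).elim
    subst this
    exact Subsingleton.elim _ _

/-- ring elements in the function field -/
noncomputable def iota : A →+* F A := algebraMap A (Spec A).functionField

lemma emb_fn (U : (Spec A).Opens) (h : gp A ∈ U) (f : A) : emb U h (fnHom U f) = iota f := by
  rw [← rs_fn (le_top : U ≤ ⊤), emb_rs]
  have := StructureSheaf.algebraMap_germ_apply (R := A) ⊤ (gp A) trivial f
  exact this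

lemma iota_inj : Function.Injective (iota (A := A)) :=
  IsFractionRing.injective A (Spec A).functionField

lemma iota_surj (k : F A) : ∃ a b : A, b ≠ 0 ∧ k * iota b = iota a := by
  obtain ⟨⟨a, b⟩, hab⟩ := IsLocalization.surj (nonZeroDivisors A)
    (S := (Spec A).functionField) k
  exact ⟨a, b.1, nonZeroDivisors.ne_zero b.2, hab⟩

/-- a rational function is regular on `U` -/
def Reg (U : (Spec A).Opens) (k : F A) : Prop := ∃ s : Γ(Spec A, U), ∀ h, emb U h s = k

lemma Reg.mono {U V : (Spec A).Opens} (i : V ≤ U) {k : F A} (h : Reg U k) : Reg V k := by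
  obtain ⟨s, hs⟩ := h
  exact ⟨rs i s, fun h => by rw [emb_rs, hs]⟩

lemma reg_emb (U : (Spec A).Opens) (h : gp A ∈ U) (s : Γ(Spec A, U)) : Reg U (emb U h s) :=
  ⟨s, fun _ => rfl⟩

lemma reg_glue {U : (Spec A).Opens} {k : F A}
    (H : ∀ y ∈ U, ∃ V : (Spec A).Opens, V ≤ U ∧ y ∈ V ∧ Reg V k) : Reg U k := by
  choose V hVU hyV s hs using H
  obtain ⟨t, ht, -⟩ := (Spec A).sheaf.existsUnique_gluing' (fun y : U => V y.1 y.2) U
    (fun y => homOfLE (hVU y.1 y.2))
    (fun y hy => Opens.mem_iSup.2 ⟨⟨y, hy⟩, hyV y hy⟩) (fun y => s y.1 y.2) (by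
      intro y z
      refine ext_emb (U := V y.1 y.2 ⊓ V z.1 z.2) fun h => ?_
      exact (emb_rs inf_le_left h _).trans ((hs _ _ _).trans
        ((emb_rs inf_le_right h _).trans (hs _ _ _)).symm))
  refine ⟨t, fun h => ?_⟩
  have := ht ⟨_, h⟩
  rw [← hs _ h (hyV _ h), ← this]
  exact (emb_rs (hVU _ h) (hyV _ h) t).symm

lemma reg_D_of {g f : A} {n : ℕ} {k : F A} (hk : k * iota g ^ n = iota f) : Reg (D g) k := by
  have hu : IsUnit (fnHom (D g) g) :=
    IsLocalization.Away.algebraMap_isUnit (R := A)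
      (S := Γ(Spec A, PrimeSpectrum.basicOpen g)) g
  obtain ⟨u, hu⟩ := hu.exists_right_inv
  refine ⟨fnHom _ f * u ^ n, fun h => ?_⟩
  have h1 : iota g * emb _ h u = 1 := by rw [← emb_fn _ h, ← map_mul, hu, map_one]
  rw [map_mul, map_pow, emb_fn, ← hk, mul_assoc, ← mul_pow, h1, one_pow, mul_one]

lemma Reg.frac {g : A} (hg : gp A ∈ D g) {k : F A} (h : Reg (D g) k) :
    ∃ (n : ℕ) (f : A), k * iota g ^ n = iota f := by
  obtain ⟨s, hs⟩ := h
  obtain ⟨n, f, hf⟩ := frac_of_D g s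
  refine ⟨n, f, ?_⟩
  rw [← hs hg, ← emb_fn _ hg, ← emb_fn _ hg, ← map_pow, ← map_mul, hf]

end Pool.Agent.MP_86c931_ag.H30
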