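import Pool.Agent.MP_86c931_ag.H30.Defs
import Pool.Agent.MP_86c931_ag.H30.Sheaf

/-! Global sections of a quantization of the affine plane surject onto polynomials. -/

namespace Pool.Agent.MP_86c931_ag.H30

open AlgebraicGeometry CategoryTheory TopologicalSpace Opposite
open scoped PowerSeries

section cech

variable {A : CommRingCat.{0}} [IsDomain A]

lemma Reg.add {U : (Spec A).Opens} {k l : F A} (hk : Reg U k) (hl : Reg U l) : Reg U (k + l) := by
  obtain ⟨s, hs⟩ := hk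
  obtain ⟨t, ht⟩ := hl
  exact ⟨s + t, fun h => by rw [map_add, hs, ht]⟩

lemma cech (V : Spec A → (Spec A).Opens) (hV : ∀ y, y ∈ V y) (k : Spec A → F A)
    (hk : ∀ y z, Reg (V y ⊓ V z) (k y - k z)) : ∃ k0 : F A, ∀ y, Reg (V y) (k y - k0) := by
  classical
  choose g hg hgV using fun y => exists_D (hV y)
  obtain ⟨s, hs, hsN⟩ := finite_cover g hg
  have h1 : ∀ z w, ∃ (n : ℕ) (f : A), (k z - k w) * iota (g z * g w) ^ n = iota f := by
    intro z w
    refine Reg.frac ?_ ((hk z w).mono ?_)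
    · rw [D_mul]; exact ⟨gen_mem (hg z), gen_mem (hg w)⟩
    · rw [D_mul]; exact inf_le_inf (hgV z) (hgV w)
  choose n f hf using h1
  set N := (s ×ˢ s).sup fun p => n p.1 p.2 with hN
  obtain ⟨a, ha⟩ := hsN N
  refine ⟨∑ w ∈ s, iota (a w * g w ^ N) * k w, fun y => reg_glue fun u hu => ?_⟩
  obtain ⟨z, hz, huz⟩ := hs u
  refine ⟨V y ⊓ D (g z), inf_le_left, ⟨hu, huz⟩, ?_⟩
  have e : k y - ∑ w ∈ s, iota (a w * g w ^ N) * k w =
      (k y - k z) + (k z - ∑ w ∈ s, iota (a w * g w ^ N) * k w) := by ring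
  rw [e]
  refine ((hk y z).mono (inf_le_inf_left _ (hgV z))).add (Reg.mono inf_le_right ?_)
  refine reg_D_of (n := N) (f := ∑ w ∈ s, a w * (f z w * (g z * g w) ^ (N - n z w))) ?_
  have e1 : k z = ∑ w ∈ s, iota (a w * g w ^ N) * k z := by
    rw [← Finset.sum_mul, ← map_sum, ha, map_one, one_mul]
  rw [e1, ← Finset.sum_sub_distrib, Finset.sum_mul, map_sum]
  refine Finset.sum_congr rfl fun w hw => ?_
  have hle : n z w ≤ N :=
    Finset.le_sup (f := fun p : Spec A × Spec A => n p.1 p.2) (b := (z, w))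
      (Finset.mem_product.2 ⟨hz, hw⟩)
  obtain ⟨m, hm⟩ := Nat.exists_eq_add_of_le hle
  rw [hm, Nat.add_sub_cancel_left, map_mul (iota) (a w) (f z w * _), map_mul iota (f z w), ← hf]
  simp only [map_mul, map_pow]
  ring

end cech

/-- A quantization of the symplectic plane: a sheaf `B` of flat associative `ℂ⟦h⟧`-algebras,
complete in the `h`-adic topology, with an isomorphism `B / h B ≅ O_Y` (given by `π`) under which
`h⁻¹ [a,b]` induces the Poisson bracket. -/
structure Quantization where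
  /-- the underlying presheaf of algebras -/
  B : TopCat.Presheaf (AlgCat.{0} ℂ⟦X⟧) Y
  isSheaf : B.IsSheaf
  flat : ∀ U : Y.Opens, Module.Flat ℂ⟦X⟧ (B.obj (op U))
  /-- the reduction modulo `h` -/
  π : ∀ U : Y.Opens, B.obj (op U) →+* Γ(Y, U)
  π_res : ∀ (U V : Y.Opens) (i : V ≤ U) (b : B.obj (op U)),
    π V (B.map (homOfLE i).op b) = Y.presheaf.map (homOfLE i).op (π U b)
  π_scalar : ∀ (U : Y.Opens) (c : ℂ⟦X⟧),
    π U (algebraMap ℂ⟦X⟧ _ c) = fn (P := PC) (MvPolynomial.C (PowerSeries.constantCoeff c)) U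
  π_ker : ∀ (U : Y.Opens) (b : B.obj (op U)),
    π U b = 0 ↔ ∃ c, b = (PowerSeries.X : ℂ⟦X⟧) • c
  π_locally_surjective : ∀ (U : Y.Opens) (f : Γ(Y, U)) (y : Y), y ∈ U →
    ∃ (V : Y.Opens) (i : V ≤ U), y ∈ V ∧ ∃ b, π V b = Y.presheaf.map (homOfLE i).op f
  /-- `B(U) → lim_n (B / h^n B)(U)` is bijective; a section of the quotient sheaf `B / h^n B`
  over `U` is represented by sections `s n y` of `B` on neighbourhoods `V n y` of the points `y`. -/
  complete : ∀ (U : Y.Opens) (V : ℕ → U → Y.Opens) (i : ∀ n y, V n y ≤ U)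
    (s : ∀ n y, B.obj (op (V n y))), (∀ n y, y.1 ∈ V n y) →
    (∀ n m y z, n ≤ m → ∃ c,
      B.map (homOfLE (inf_le_left : V n y ⊓ V m z ≤ V n y)).op (s n y) -
        B.map (homOfLE (inf_le_right : V n y ⊓ V m z ≤ V m z)).op (s m z) =
          (PowerSeries.X : ℂ⟦X⟧) ^ n • c) →
    ∃! t : B.obj (op U), ∀ n y, ∃ c,
      B.map (homOfLE (i n y)).op t - s n y = (PowerSeries.X : ℂ⟦X⟧) ^ n • c
  poisson : ∀ (U : Y.Opens) (a b c : B.obj (op U)) (f g : P), π U a = fn (P := PC) f U →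
    π U b = fn (P := PC) g U →
    a * b - b * a = (PowerSeries.X : ℂ⟦X⟧) • c → π U c = fn (P := PC) (br f g) U

/-- bundling -/
def IsQuantization.toQ {B : TopCat.Presheaf (AlgCat.{0} ℂ⟦X⟧) Y}
    {π : ∀ U : Y.Opens, B.obj (op U) →+* Γ(Y, U)}
    (h : IsQuantization (P := PC) B π MvPolynomial.C br) : Quantization where
  B := B
  isSheaf := h.1
  flat := h.2.1
  π := π
  π_res := h.2.2.2.1.1
  π_scalar := h.2.2.2.1.2.1
  π_ker U b := by
    have := h.2.2.2.1.2.2.1 U b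
    rwa [Divisible, pow_one] at this
  π_locally_surjective := h.2.2.2.1.2.2.2
  complete := h.2.2.1
  poisson := h.2.2.2.2

lemma Quantization.isQ (Q : Quantization) :
    IsQuantization (P := PC) Q.B Q.π MvPolynomial.C br :=
  ⟨Q.isSheaf, Q.flat, Q.complete, ⟨Q.π_res, Q.π_scalar, fun U b => by
    rw [Divisible, pow_one]; exact Q.π_ker U b, Q.π_locally_surjective⟩, Q.poisson⟩

namespace Quantization

variable (Q : Quantization)

/-- restriction in the quantization -/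
noncomputable def rb {U V : Y.Opens} (i : V ≤ U) : Q.B.obj (op U) →ₐ[ℂ⟦X⟧] Q.B.obj (op V) :=
  (Q.B.map (homOfLE i).op).hom

lemma rb_rb {U V W : Y.Opens} (i : V ≤ U) (j : W ≤ V) (s : Q.B.obj (op U)) :
    Q.rb j (Q.rb i s) = Q.rb (j.trans i) s := by
  show (Q.B.map (homOfLE j).op).hom ((Q.B.map (homOfLE i).op).hom s) = _
  rw [← AlgCat.comp_apply, ← Functor.map_comp]
  rfl

lemma rb_self {U : Y.Opens} (s : Q.B.obj (op U)) : Q.rb le_rfl s = s := by
  show (Q.B.map (homOfLE le_rfl).op).hom s = s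
  have : (homOfLE (le_rfl : U ≤ U)).op = 𝟙 _ := rfl
  rw [this, CategoryTheory.Functor.map_id]
  rfl

lemma π_rb {U V : Y.Opens} (i : V ≤ U) (b : Q.B.obj (op U)) :
    Q.π V (Q.rb i b) = rs (A := PC) i (Q.π U b) := Q.π_res U V i b

lemma h_reg (U : Y.Opens) (n : ℕ) :
    IsSMulRegular (Q.B.obj (op U)) ((PowerSeries.X : ℂ⟦X⟧) ^ n) := by
  have := Q.flat U
  exact Module.Flat.isSMulRegular_of_nonZeroDivisors
    (mem_nonZeroDivisors_of_ne_zero (pow_ne_zero n PowerSeries.X_ne_zero))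

/-- divisibility by a power of `h` -/
def Dv (n : ℕ) {U : Y.Opens} (b : Q.B.obj (op U)) : Prop :=
  ∃ c, b = (PowerSeries.X : ℂ⟦X⟧) ^ n • c

variable {Q}

lemma Dv.res {n : ℕ} {U V : Y.Opens} (i : V ≤ U) {b : Q.B.obj (op U)} (h : Q.Dv n b) :
    Q.Dv n (Q.rb i b) := by
  obtain ⟨c, rfl⟩ := h
  exact ⟨Q.rb i c, map_smul _ _ _⟩

lemma Dv.add {n : ℕ} {U : Y.Opens} {b b' : Q.B.obj (op U)} (h : Q.Dv n b) (h' : Q.Dv n b') :
    Q.Dv n (b + b') := by
  obtain ⟨c, rfl⟩ := h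
  obtain ⟨c', rfl⟩ := h'
  exact ⟨c + c', (smul_add _ _ _).symm⟩

lemma Dv.neg {n : ℕ} {U : Y.Opens} {b : Q.B.obj (op U)} (h : Q.Dv n b) : Q.Dv n (-b) := by
  obtain ⟨c, rfl⟩ := h
  exact ⟨-c, (smul_neg _ _).symm⟩

lemma Dv.weaken {n : ℕ} {U : Y.Opens} {b : Q.B.obj (op U)} (h : Q.Dv (n + 1) b) : Q.Dv n b := by
  obtain ⟨c, rfl⟩ := h
  exact ⟨(PowerSeries.X : ℂ⟦X⟧) • c, by rw [pow_succ, mul_smul]⟩

lemma Dv.π_eq {n : ℕ} {U : Y.Opens} {b : Q.B.obj (op U)} (h : Q.Dv (n + 1) b) : Q.π U b = 0 := by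
  obtain ⟨c, rfl⟩ := h
  exact (Q.π_ker U _).2 ⟨(PowerSeries.X : ℂ⟦X⟧) ^ n • c, by rw [pow_succ', mul_smul]⟩

lemma Dv.of_res {n : ℕ} {U : Y.Opens} {b : Q.B.obj (op U)}
    (h : gp PC ∈ U → ∃ (V : Y.Opens) (i : V ≤ U), gp PC ∈ V ∧ Q.Dv n (Q.rb i b)) : Q.Dv n b := by
  induction n generalizing b with
  | zero => exact ⟨b, by simp⟩
  | succ n ih =>
    have h0 : Q.π U b = 0 := by
      refine ext_emb (A := PC) fun hU => ?_
      obtain ⟨V, i, hV, hd⟩ := h hU
      rw [← emb_rs (A := PC) i hV, ← π_rb, hd.π_eq, map_zero, map_zero]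
    obtain ⟨c, rfl⟩ := (Q.π_ker U b).1 h0
    have : Q.Dv n c := by
      refine ih fun hU => ?_
      obtain ⟨V, i, hV, c', hc'⟩ := h hU
      refine ⟨V, i, hV, c', ?_⟩
      have hr := Q.h_reg V 1
      rw [pow_one] at hr
      apply hr
      simp only
      rw [← map_smul, hc', pow_succ', mul_smul]
    obtain ⟨c', rfl⟩ := this
    exact ⟨c', by rw [pow_succ', mul_smul]⟩

variable (Q) in
/-- local sections near every point -/
structure Raw where
  /-- neighbourhoods -/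
  V : Y → Y.Opens
  mem : ∀ y, y ∈ V y
  /-- sections -/
  s : ∀ y, Q.B.obj (op (V y))

/-- agreement modulo a power of `h` -/
def Near (n : ℕ) (a b : Q.Raw) : Prop :=
  ∀ y z (W : Y.Opens) (i : W ≤ a.V y) (j : W ≤ b.V z), Q.Dv n (Q.rb i (a.s y) - Q.rb j (b.s z))

lemma Near.symm {n : ℕ} {a b : Q.Raw} (h : Near n a b) : Near n b a := fun y z W i j => by
  have := (h z y W j i).neg
  rwa [neg_sub] at this

lemma Near.weaken {n : ℕ} {a b : Q.Raw} (h : Near (n + 1) a b) : Near n a b :=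
  fun y z W i j => (h y z W i j).weaken

lemma Near.trans {n : ℕ} {a b c : Q.Raw} (h : Near n a b) (h' : Near n b c) : Near n a c := by
  intro y z W i j
  refine Dv.of_res fun hW => ⟨W ⊓ b.V y, inf_le_left, ⟨hW, gen_mem (A := PC) (b.mem y)⟩, ?_⟩
  rw [map_sub, rb_rb, rb_rb]
  have := (h y y (W ⊓ b.V y) (inf_le_left.trans i) inf_le_right).add
    (h' y z (W ⊓ b.V y) inf_le_right (inf_le_left.trans j))
  rwa [sub_add_sub_cancel] at this

lemma step {n : ℕ} (a : Q.Raw) (ha : Near n a a) :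
    ∃ b : Q.Raw, Near (n + 1) b b ∧ Near n b a := by
  choose c hc using fun y z => ha y z (a.V y ⊓ a.V z) inf_le_left inf_le_right
  have hg : ∀ y z, gp PC ∈ a.V y ⊓ a.V z := fun y z =>
    ⟨gen_mem (A := PC) (a.mem y), gen_mem (A := PC) (a.mem z)⟩
  let g : Y → Y → F PC := fun y z => emb (A := PC) _ (hg y z) (Q.π _ (c y z))
  have hc' : ∀ y z (W : Y.Opens) (i : W ≤ a.V y) (j : W ≤ a.V z),
      Q.rb i (a.s y) - Q.rb j (a.s z) =
        (PowerSeries.X : ℂ⟦X⟧) ^ n • Q.rb (le_inf i j) (c y z) := by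
    intro y z W i j
    rw [← map_smul, ← hc, map_sub, rb_rb, rb_rb]
  have hcoc : ∀ y z w, g y z + g z w = g y w := by
    intro y z w
    let W := a.V y ⊓ a.V z ⊓ a.V w
    have iy : W ≤ a.V y := inf_le_left.trans inf_le_left
    have iz : W ≤ a.V z := inf_le_left.trans inf_le_right
    have iw : W ≤ a.V w := inf_le_right
    have hW : gp PC ∈ W := ⟨hg y z, gen_mem (A := PC) (a.mem w)⟩
    have e : Q.rb (le_inf iy iz) (c y z) + Q.rb (le_inf iz iw) (c z w) =
        Q.rb (le_inf iy iw) (c y w) := by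
      apply Q.h_reg W n
      simp only
      rw [smul_add, ← hc' y z W iy iz, ← hc' z w W iz iw, ← hc' y w W iy iw, sub_add_sub_cancel]
    have := congrArg (fun b => emb (A := PC) W hW (Q.π W b)) e
    simpa only [map_add, π_rb, emb_rs] using this
  obtain ⟨k0, hk0⟩ := cech (A := PC) a.V a.mem (fun y => g y (gp PC)) (fun y z => by
    rw [← hcoc y z (gp PC), add_sub_cancel_right]
    exact reg_emb _ _ _)
  choose t ht using hk0
  choose V' i' hV' b hb using fun y => Q.π_locally_surjective (a.V y) (t y) y (a.mem y)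
  refine ⟨⟨V', hV', fun y => Q.rb (i' y) (a.s y) - (PowerSeries.X : ℂ⟦X⟧) ^ n • b y⟩, ?_, ?_⟩
  · intro y z W i j
    simp only [map_sub, map_smul, rb_rb]
    have e : Q.π W (Q.rb (le_inf (i.trans (i' y)) (j.trans (i' z))) (c y z) - Q.rb i (b y) +
        Q.rb j (b z)) = 0 := by
      refine ext_emb (A := PC) fun hW => ?_
      have hby : Q.π _ (b y) = rs (A := PC) (i' y) (t y) := hb y
      have hbz : Q.π _ (b z) = rs (A := PC) (i' z) (t z) := hb z
      simp only [map_add, map_sub, π_rb, emb_rs, hby, hbz, ht, map_zero]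
      show g y z - (g y (gp PC) - k0) + (g z (gp PC) - k0) = 0
      rw [← hcoc y z (gp PC)]
      ring
    obtain ⟨e', he'⟩ := (Q.π_ker W _).1 e
    refine ⟨e', ?_⟩
    rw [pow_succ, mul_smul, ← he', smul_add, smul_sub, ← hc' y z W (i.trans (i' y)) (j.trans (i' z))]
    abel
  · intro y z W i j
    simp only [map_sub, map_smul, rb_rb]
    refine ⟨Q.rb (le_inf (i.trans (i' y)) j) (c y z) - Q.rb i (b y), ?_⟩
    rw [smul_sub, ← hc' y z W (i.trans (i' y)) j]
    abel

theorem π_top_surjective (Q : Quantization) : Function.Surjective (Q.π ⊤) := by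
  intro f
  choose V i hV b hb using fun y => Q.π_locally_surjective ⊤ f y trivial
  let a0 : Q.Raw := ⟨V, hV, b⟩
  have h0 : Near 1 a0 a0 := by
    intro y z W i' j'
    have : Q.π W (Q.rb i' (b y) - Q.rb j' (b z)) = 0 := by
      have hby : Q.π _ (b y) = rs (A := PC) (i y) f := hb y
      have hbz : Q.π _ (b z) = rs (A := PC) (i z) f := hb z
      rw [map_sub, π_rb, π_rb, hby, hbz, rs_rs, rs_rs, sub_self]
    obtain ⟨c, hc⟩ := (Q.π_ker W _).1 this
    exact ⟨c, by rw [pow_one]; exact hc⟩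
  choose nx hnx1 hnx2 using fun (n : ℕ) (a : {a : Q.Raw // Near (n + 1) a a}) => step a.1 a.2
  let seq : ∀ n : ℕ, {a : Q.Raw // Near (n + 1) a a} := fun n =>
    Nat.rec ⟨a0, h0⟩ (fun n a => ⟨nx n a, hnx1 n a⟩) n
  have hs : ∀ n, Near (n + 1) (seq (n + 1)).1 (seq n).1 := fun n => hnx2 n (seq n)
  have hall : ∀ n m, n ≤ m → Near (n + 1) (seq n).1 (seq m).1 := by
    intro n m hnm
    induction m, hnm using Nat.le_induction with
    | base => exact (seq n).2
    | succ m hnm ih =>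
      refine ih.trans ?_
      have : ∀ k, Near (n + k + 1) (seq (m + 1)).1 (seq m).1 →
          Near (n + 1) (seq (m + 1)).1 (seq m).1 := by
        intro k
        induction k with
        | zero => exact id
        | succ k ihk => exact fun h => ihk (Near.weaken h)
      obtain ⟨k, rfl⟩ := Nat.exists_eq_add_of_le hnm
      exact (this k (hs _)).symm
  obtain ⟨t, ht, -⟩ := Q.complete ⊤ (fun n y => (seq n).1.V y.1) (fun _ _ => le_top)
    (fun n y => (seq n).1.s y.1) (fun n y => (seq n).1.mem y.1)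
    (fun n m y z hnm => (hall n m hnm).weaken y.1 z.1 _ inf_le_left inf_le_right)
  refine ⟨t, ext_emb (A := PC) fun hT => ?_⟩
  let y : Y := gp PC
  have h1 : Q.Dv 1 (Q.rb (le_top : (seq 1).1.V y ≤ ⊤) t - (seq 1).1.s y) := ht 1 ⟨y, trivial⟩
  have h2' : Near 1 (seq 1).1 (seq 0).1 := hs 0
  have h2 := h2' y y _ inf_le_left inf_le_right
  have h3 := ((h1.res (inf_le_left : (seq 1).1.V y ⊓ (seq 0).1.V y ≤ _)).add h2).π_eq
  have hW : gp PC ∈ (seq 1).1.V y ⊓ (seq 0).1.V y := ⟨(seq 1).1.mem y, (seq 0).1.mem y⟩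
  rw [map_sub, sub_add_sub_cancel, rb_rb, map_sub, sub_eq_zero, π_rb, π_rb] at h3
  have hby : Q.π _ ((seq 0).1.s y) = rs (A := PC) (i y) f := hb y
  rw [hby, rs_rs] at h3
  have := congrArg (emb (A := PC) _ hW) h3
  rwa [emb_rs, emb_rs] at this

theorem top_complete (Q : Quantization) (u : ℕ → Q.B.obj (op ⊤))
    (hu : ∀ n, Q.Dv n (u n - u (n + 1))) : ∃! t, ∀ n, Q.Dv n (t - u n) := by
  have hall : ∀ n m, n ≤ m → Q.Dv n (u n - u m) := by
    intro n m hnm
    induction m, hnm using Nat.le_induction with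
    | base => exact ⟨0, by simp⟩
    | succ m hnm ih =>
      have : ∀ k, Q.Dv (n + k) (u m - u (m + 1)) → Q.Dv n (u m - u (m + 1)) := by
        intro k
        induction k with
        | zero => exact id
        | succ k ihk => exact fun h => ihk (Dv.weaken h)
      obtain ⟨k, rfl⟩ := Nat.exists_eq_add_of_le hnm
      have := ih.add (this k (hu _))
      rwa [sub_add_sub_cancel] at this
  obtain ⟨t, ht, ht'⟩ := Q.complete ⊤ (fun _ _ => ⊤) (fun _ _ => le_top)
    (fun n _ => u n) (fun _ _ => trivial)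
    (fun n m y z hnm => by
      have := (hall n m hnm).res (inf_le_left : (⊤ : Y.Opens) ⊓ ⊤ ≤ ⊤)
      rwa [map_sub] at this)
  refine ⟨t, fun n => ?_, fun t' h' => ht' t' fun n _ => ?_⟩
  · have : Q.Dv n (Q.rb le_rfl t - u n) := ht n ⟨gp PC, trivial⟩
    rwa [rb_self] at this
  · have := h' n
    rw [← Q.rb_self t'] at this
    exact this

end Quantization

end Pool.Agent.MP_86c931_ag.H30
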