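import Pool.Agent.MP_86c931_ag.H30.StarAlg
import Pool.Agent.MP_86c931_ag.H30.Lift

/-! The standard quantization of the plane. -/

namespace Pool.Agent.MP_86c931_ag.H30

open AlgebraicGeometry CategoryTheory TopologicalSpace Opposite
open scoped PowerSeries

section der

lemma exists_derL {A L : Type} [CommRing A] [IsDomain A] [Field L] [Algebra A L]
    [IsFractionRing A L] (d : A →+ A) (hd : ∀ a b, d (a * b) = a * d b + b * d a) :
    ∃ δ : L →+ L, (∀ a b, δ (a * b) = a * δ b + b * δ a) ∧
      ∀ a, δ (algebraMap A L a) = algebraMap A L (d a) := by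
  have d1 : d 1 = 0 := by
    have := hd 1 1
    simp only [mul_one, one_mul] at this
    exact left_eq_add.1 this
  let φ0 : A → TrivSqZeroExt L L := fun a => (algebraMap A L a, algebraMap A L (d a))
  have h2' : ∀ b, (φ0 b).fst = algebraMap A L b := fun b => rfl
  have h3' : ∀ b, (φ0 b).snd = algebraMap A L (d b) := fun b => rfl
  let φ : A →+* TrivSqZeroExt L L :=
    { toFun := φ0
      map_one' := by
        ext
        · rw [h2', map_one, TrivSqZeroExt.fst_one]
        · rw [h3', d1, map_zero, TrivSqZeroExt.snd_one]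
      map_mul' := fun a b => by
        ext
        · rw [h2', map_mul, TrivSqZeroExt.fst_mul, h2', h2']
        · rw [h3', TrivSqZeroExt.snd_mul, h2', h2', h3', h3', hd, smul_eq_mul,
            MulOpposite.smul_eq_mul_unop, MulOpposite.unop_op, map_add, map_mul, map_mul,
            mul_comm (algebraMap A L b)]
      map_zero' := by
        ext
        · rw [h2', map_zero, TrivSqZeroExt.fst_zero]
        · rw [h3', map_zero, map_zero, TrivSqZeroExt.snd_zero]
      map_add' := fun a b => by
        ext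
        · rw [h2', map_add, TrivSqZeroExt.fst_add, h2', h2']
        · rw [h3', map_add, map_add, TrivSqZeroExt.snd_add, h3', h3'] }
  have h2 : ∀ b, (φ b).fst = algebraMap A L b := h2'
  have h3 : ∀ b, (φ b).snd = algebraMap A L (d b) := h3'
  have hφ : ∀ y : nonZeroDivisors A, IsUnit (φ y) := fun y => by
    rw [TrivSqZeroExt.isUnit_iff_isUnit_fst, h2]
    exact IsLocalization.map_units L y
  let ψ : L →+* TrivSqZeroExt L L := IsLocalization.lift hφ
  have hψ : ∀ a, ψ (algebraMap A L a) = φ a := fun a => IsLocalization.lift_eq hφ a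
  have hfst : ∀ k, (ψ k).fst = k := fun k => by
    obtain ⟨⟨a, b⟩, hab⟩ := IsLocalization.surj (nonZeroDivisors A) k
    have h1 := congrArg (fun z => (ψ z).fst) hab
    simp only [map_mul, hψ, TrivSqZeroExt.fst_mul, h2] at h1
    rw [← hab] at h1
    exact mul_right_cancel₀ (IsLocalization.map_units L b).ne_zero h1
  refine ⟨⟨⟨fun k => (ψ k).snd, ?_⟩, fun a b => ?_⟩, fun a b => ?_, fun a => ?_⟩
  · rw [map_zero, TrivSqZeroExt.snd_zero]
  · simp only [map_add, TrivSqZeroExt.snd_add]
  · show (ψ (a * b)).snd = a * (ψ b).snd + b * (ψ a).snd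
    rw [map_mul, TrivSqZeroExt.snd_mul, hfst, hfst, smul_eq_mul, MulOpposite.smul_eq_mul_unop,
      MulOpposite.unop_op, mul_comm b]
  · show (ψ _).snd = _
    rw [hψ, h3]

variable {A : CommRingCat.{0}} [IsDomain A]

lemma exists_derF (d : A →+ A) (hd : ∀ a b, d (a * b) = a * d b + b * d a) :
    ∃ δ : F A →+ F A, (∀ a b, δ (a * b) = a * δ b + b * δ a) ∧ ∀ a, δ (iota a) = iota (d a) :=
  exists_derL (A := A) (L := F A) d hd

lemma reg_der {d : A → A} {δ : F A →+ F A} (hδ : ∀ a b, δ (a * b) = a * δ b + b * δ a)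
    (hd : ∀ a, δ (iota a) = iota (d a)) {U : (Spec A).Opens} {k : F A} (hk : Reg U k) :
    Reg U (δ k) := by
  refine reg_glue fun y hy => ?_
  obtain ⟨g, hg, hgU⟩ := exists_D hy
  obtain ⟨n, f, hf⟩ := (hk.mono hgU).frac (gen_mem hg)
  refine ⟨D g, hgU, hg, reg_D_of (n := n + n) (f := d f * g ^ n - f * d (g ^ n)) ?_⟩
  have h1 := congrArg δ hf
  rw [hδ, ← map_pow, hd, hd] at h1
  rw [map_sub, map_mul, map_mul, ← h1, ← hf, pow_add]
  simp only [map_pow]
  ring

lemma der_comm {δ ε : F A →+ F A} (hδ : ∀ a b, δ (a * b) = a * δ b + b * δ a)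
    (hε : ∀ a b, ε (a * b) = a * ε b + b * ε a) (h : ∀ a, δ (ε (iota a)) = ε (δ (iota a)))
    (k : F A) : δ (ε k) = ε (δ k) := by
  obtain ⟨a, b, hb, hab⟩ := iota_surj k
  have hb' : iota b ≠ 0 := fun h => hb (iota_inj (h.trans (map_zero _).symm))
  have h1 := h a
  rw [← hab] at h1
  simp only [hδ, hε, map_add, h b] at h1
  apply mul_left_cancel₀ hb'
  linear_combination h1

end der

/-- sections of the structure sheaf as complex algebras -/
def O (U : Y.Opens) : Type := Γ(Y, U)

noncomputable instance (U : Y.Opens) : CommRing (O U) := inferInstanceAs (CommRing Γ(Y, U))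

noncomputable instance (U : Y.Opens) : Algebra ℂ (O U) :=
  RingHom.toAlgebra ((fnHom (A := PC) U).comp MvPolynomial.C)

/-- restriction as a morphism of complex algebras -/
noncomputable def rsA {U V : Y.Opens} (i : V ≤ U) : O U →ₐ[ℂ] O V :=
  { rs (A := PC) i with commutes' := fun c => rs_fn (A := PC) i (MvPolynomial.C c) }

lemma exists_pderivF (j : Fin 2) : ∃ δ : F PC →+ F PC,
    (∀ a b, δ (a * b) = a * δ b + b * δ a) ∧
      ∀ a : P, δ (iota (A := PC) a) = iota (A := PC) (MvPolynomial.pderiv j a) :=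
  exists_derF (A := PC) (MvPolynomial.pderiv j : Derivation ℂ P P).toLinearMap.toAddMonoidHom
    (fun a b => by
      show MvPolynomial.pderiv j (a * b) = a * MvPolynomial.pderiv j b + b * MvPolynomial.pderiv j a
      rw [Derivation.leibniz]; rfl)

/-- coordinate derivatives of rational functions -/
noncomputable def dF (j : Fin 2) : F PC →+ F PC := (exists_pderivF j).choose

lemma dF_mul (j : Fin 2) (a b : F PC) : dF j (a * b) = a * dF j b + b * dF j a :=
  (exists_pderivF j).choose_spec.1 a b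

lemma dF_iota (j : Fin 2) (a : P) :
    dF j (iota (A := PC) a) = iota (A := PC) (MvPolynomial.pderiv j a) :=
  (exists_pderivF j).choose_spec.2 a

lemma pderiv_comm' (f : P) : MvPolynomial.pderiv 0 (MvPolynomial.pderiv 1 f) =
    MvPolynomial.pderiv 1 (MvPolynomial.pderiv 0 f) := by
  induction f using MvPolynomial.induction_on with
  | C a => simp
  | add p q hp hq => simp [hp, hq]
  | mul_X p i hp =>
    simp only [Derivation.leibniz, smul_eq_mul, map_add, hp, MvPolynomial.pderiv_X]
    fin_cases i <;> simp <;> ring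

lemma exists_dU (j : Fin 2) (U : Y.Opens) (s : O U) :
    ∃ t : O U, ∀ h, emb (A := PC) U h t = dF j (emb (A := PC) U h s) := by
  by_cases h : gp PC ∈ U
  · obtain ⟨t, ht⟩ := reg_der (A := PC) (dF_mul j) (dF_iota j) (reg_emb U h s)
    exact ⟨t, fun h => ht h⟩
  · exact ⟨0, fun h' => (h h').elim⟩

/-- embedding of sections into the function field -/
noncomputable def embO (U : Y.Opens) (h : gp PC ∈ U) : O U →+* F PC := emb (A := PC) U h

lemma ext_embO {U : Y.Opens} {s t : O U} (H : ∀ h, embO U h s = embO U h t) : s = t :=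
  ext_emb (A := PC) H

lemma embO_rsA {U V : Y.Opens} (i : V ≤ U) (h : gp PC ∈ V) (s : O U) :
    embO V h (rsA i s) = embO U (i h) s := emb_rs (A := PC) i h s

lemma embO_algebraMap (U : Y.Opens) (h : gp PC ∈ U) (c : ℂ) :
    embO U h (algebraMap ℂ (O U) c) = iota (A := PC) (MvPolynomial.C c) :=
  emb_fn (A := PC) U h _

/-- coordinate derivatives of sections -/
noncomputable def dU0 (j : Fin 2) (U : Y.Opens) (s : O U) : O U := (exists_dU j U s).choose

lemma embO_dU0 (j : Fin 2) (U : Y.Opens) (s : O U) (h : gp PC ∈ U) :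
    embO U h (dU0 j U s) = dF j (embO U h s) := (exists_dU j U s).choose_spec h

/-- coordinate derivatives of sections as derivations -/
noncomputable def dU (j : Fin 2) (U : Y.Opens) : Derivation ℂ (O U) (O U) where
  toFun := dU0 j U
  map_add' s t := ext_embO fun h => by simp only [embO_dU0, map_add]
  map_smul' c s := ext_embO fun h => by
    simp only [Algebra.smul_def, embO_dU0, map_mul, RingHom.id_apply, dF_mul, embO_algebraMap]
    have h0 : dF j (iota (A := PC) (MvPolynomial.C c)) = 0 := by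
      refine (dF_iota j _).trans ?_
      rw [MvPolynomial.pderiv_C]
      exact map_zero _
    rw [h0, mul_zero, add_zero]
  map_one_eq_zero' := ext_embO fun h => by
    simp only [LinearMap.coe_mk, AddHom.coe_mk, embO_dU0, map_one, map_zero]
    have := dF_iota j 1
    simpa using this
  leibniz' s t := ext_embO fun h => by
    simp only [LinearMap.coe_mk, AddHom.coe_mk, embO_dU0, map_mul, dF_mul, smul_eq_mul, map_add]

lemma embO_dU (j : Fin 2) (U : Y.Opens) (s : O U) (h : gp PC ∈ U) :
    embO U h (dU j U s) = dF j (embO U h s) := embO_dU0 j U s h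

lemma rsA_dU (j : Fin 2) {U V : Y.Opens} (i : V ≤ U) (s : O U) :
    rsA i (dU j U s) = dU j V (rsA i s) :=
  ext_embO fun h => by rw [embO_rsA, embO_dU, embO_dU, embO_rsA]

/-- the two coordinate derivations -/
noncomputable def pr (U : Y.Opens) : Pair (O U) where
  d := dU 0 U
  e := dU 1 U
  comm s := ext_embO fun h => by
    simp only [embO_dU]
    exact der_comm (A := PC) (dF_mul 0) (dF_mul 1)
      (fun a => by
        refine ((congrArg (dF 0) (dF_iota 1 a)).trans (dF_iota 0 _)).trans ?_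
        rw [pderiv_comm']
        exact ((congrArg (dF 1) (dF_iota 0 a)).trans (dF_iota 1 _)).symm) _

/-- restriction maps of the standard quantization -/
noncomputable def resSt {U V : Y.Opens} (i : V ≤ U) : St (pr U) →ₐ[ℂ⟦X⟧] St (pr V) :=
  St.map (p := pr U) (p' := pr V) (rsA i) (rsA_dU 0 i) (rsA_dU 1 i)

/-- coefficients in the function field -/
noncomputable def cf {U : Y.Opens} (h : gp PC ∈ U) (n : ℕ) (b : St (pr U)) : F PC :=
  embO U h (PowerSeries.coeff n (St.ser _ b))

lemma cf_res {U V : Y.Opens} (i : V ≤ U) (h : gp PC ∈ V) (n : ℕ) (b : St (pr U)) :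
    cf h n (resSt i b) = cf (i h) n b := by
  rw [cf, resSt, St.coeff_map, embO_rsA, cf]

lemma cf_sub {U : Y.Opens} (h : gp PC ∈ U) (n : ℕ) (b c : St (pr U)) :
    cf h n (b - c) = cf h n b - cf h n c := by
  simp only [cf, St.ser_sub, map_sub]

lemma ext_cf {U : Y.Opens} {b c : St (pr U)} (H : ∀ h n, cf h n b = cf h n c) : b = c := by
  apply (St.ser _).injective
  ext n
  exact ext_embO fun h => H h n

lemma dv_cf {U : Y.Opens} (n : ℕ) (b : St (pr U)) :
    (∃ c, b = (PowerSeries.X : ℂ⟦X⟧) ^ n • c) ↔ ∀ h, ∀ m < n, cf h m b = 0 := by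
  rw [St.dv_iff]
  constructor
  · intro H h m hm
    rw [cf, H m hm, map_zero]
  · intro H m hm
    exact ext_embO fun h => by rw [map_zero]; exact H h m hm

lemma exists_cf {U : Y.Opens} (k : gp PC ∈ U → ℕ → F PC) (hk : ∀ h n, Reg (A := PC) U (k h n)) :
    ∃ b : St (pr U), ∀ h n, cf h n b = k h n := by
  by_cases h : gp PC ∈ U
  · choose t ht using hk h
    refine ⟨(St.ser _).symm (PowerSeries.mk fun n => (t n : O U)), fun h' n => ?_⟩
    rw [cf, Equiv.apply_symm_apply, PowerSeries.coeff_mk]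
    exact ht n h
  · exact ⟨0, fun h' => (h h').elim⟩

lemma reg_cf {U : Y.Opens} (h : gp PC ∈ U) (n : ℕ) (b : St (pr U)) :
    Reg (A := PC) U (cf h n b) := reg_emb (A := PC) U h _

/-- the presheaf of the standard quantization -/
noncomputable def BSt : TopCat.Presheaf (AlgCat.{0} ℂ⟦X⟧) Y where
  obj U := AlgCat.of ℂ⟦X⟧ (St (pr U.unop))
  map i := AlgCat.ofHom (resSt i.unop.le)
  map_id U := by
    ext b
    exact ext_cf fun h n => cf_res _ h n b
  map_comp i j := by
    ext b
    exact ext_cf fun h n => (cf_res _ h n b).trans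
      ((cf_res j.unop.le h n _).trans (cf_res i.unop.le _ n b)).symm

lemma BSt_isSheaf : BSt.IsSheaf := by
  rw [TopCat.Presheaf.isSheaf_iff_isSheafUniqueGluing]
  intro ι U sf hc
  have hc' : ∀ i j (hi : gp PC ∈ U i) (hj : gp PC ∈ U j) n,
      cf hi n (sf i : St (pr (U i))) = cf hj n (sf j : St (pr (U j))) := by
    intro i j hi hj n
    have h : gp PC ∈ U i ⊓ U j := ⟨hi, hj⟩
    have e : resSt (inf_le_left : U i ⊓ U j ≤ U i) (sf i) =
      resSt (inf_le_right : U i ⊓ U j ≤ U j) (sf j) := hc i j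
    rw [← cf_res inf_le_left h, e, cf_res]
  have hex : ∀ {y : Y}, y ∈ iSup U → ∃ i, y ∈ U i := fun h => Opens.mem_iSup.1 h
  obtain ⟨b, hb⟩ := exists_cf (U := iSup U)
    (fun h n => cf (hex h).choose_spec n (sf (hex h).choose)) (fun h n => by
      refine reg_glue fun y hy => ?_
      obtain ⟨i, hi⟩ := hex hy
      refine ⟨U i, le_iSup U i, hi, ?_⟩
      rw [hc' _ i _ (gen_mem (A := PC) hi)]
      exact reg_cf _ _ _)
  refine ⟨b, fun i => ?_, fun b' hb' => ?_⟩
  · refine ext_cf (U := U i) fun h n => ?_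
    refine (cf_res (le_iSup U i) h n b).trans ?_
    rw [hb]
    exact hc' _ _ _ _ _
  · refine ext_cf (U := iSup U) fun h n => ?_
    rw [hb]
    have e : resSt (le_iSup U (hex h).choose) b' = sf _ := hb' (hex h).choose
    rw [← e, cf_res]

lemma dU_fn (j : Fin 2) (U : Y.Opens) (f : P) :
    dU j U (fnHom (A := PC) U f) = fnHom (A := PC) U (MvPolynomial.pderiv j f) :=
  ext_embO fun h => by
    rw [embO_dU]
    exact (congrArg (dF j) (emb_fn (A := PC) U h f)).trans
      ((dF_iota j f).trans (emb_fn (A := PC) U h _).symm)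

/-- the standard quantization -/
noncomputable def stdQ : Quantization where
  B := BSt
  isSheaf := BSt_isSheaf
  flat U := St.flat (pr U)
  π U := St.red (pr U)
  π_res U V i b := St.coeff_map (p := pr U) (p' := pr V) (rsA i) (rsA_dU 0 i) (rsA_dU 1 i) b 0
  π_scalar U c := by
    show PowerSeries.coeff 0 (St.ser (pr U) (algebraMap ℂ⟦X⟧ (St (pr U)) c)) = _
    rw [St.ser_algebraMap, PowerSeries.coeff_map, PowerSeries.coeff_zero_eq_constantCoeff_apply]
    rfl
  π_ker U b := by
    have := St.dv_iff (p := pr U) 1 b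
    rw [pow_one] at this
    refine Iff.trans ?_ this.symm
    constructor
    · intro h m hm
      obtain rfl : m = 0 := by omega
      exact h
    · intro h
      exact h 0 Nat.one_pos
  π_locally_surjective U f y hy :=
    ⟨U, le_rfl, hy, (St.ser (pr U)).symm (PowerSeries.C (f : O U)), by
      show PowerSeries.coeff 0 (St.ser (pr U) ((St.ser (pr U)).symm _)) = rs (A := PC) le_rfl f
      rw [Equiv.apply_symm_apply, rs_self, PowerSeries.coeff_zero_C]⟩
  complete U V i s hV hs := by
    have hg : ∀ n y, gp PC ∈ V n y := fun n y => gen_mem (A := PC) (hV n y)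
    have hs' : ∀ n m y z, n ≤ m → ∀ k < n,
        cf (hg n y) k (s n y : St (pr (V n y))) = cf (hg m z) k (s m z : St (pr (V m z))) := by
      intro n m y z hnm k hk
      have h : gp PC ∈ V n y ⊓ V m z := ⟨hg n y, hg m z⟩
      have e := (dv_cf (U := V n y ⊓ V m z) n _).1 (hs n m y z hnm) h k hk
      have e' : cf h k (resSt (inf_le_left : V n y ⊓ V m z ≤ V n y) (s n y) -
        resSt (inf_le_right : V n y ⊓ V m z ≤ V m z) (s m z)) = 0 := e
      rwa [cf_sub, cf_res, cf_res, sub_eq_zero] at e'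
    obtain ⟨t, ht⟩ := exists_cf (U := U)
      (fun h n => cf (hg (n + 1) ⟨_, h⟩) n (s (n + 1) ⟨_, h⟩)) (fun h n => by
        refine reg_glue fun y hy => ⟨V (n + 1) ⟨y, hy⟩, i _ _, hV _ _, ?_⟩
        rw [hs' (n + 1) (n + 1) _ ⟨y, hy⟩ le_rfl n (Nat.lt_succ_self n)]
        exact reg_cf _ _ _)
    refine ⟨t, fun n y => (dv_cf (U := V n y) n _).2 fun h m hm => ?_, fun t' ht' => ?_⟩
    · show cf h m (resSt (i n y) t - (show St (pr (V n y)) from s n y)) = 0
      rw [cf_sub, cf_res, ht, sub_eq_zero]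
      exact hs' (m + 1) n _ y hm m (Nat.lt_succ_self m)
    · refine ext_cf (U := U) fun h n => ?_
      rw [ht]
      have e := (dv_cf (U := V (n + 1) ⟨_, h⟩) (n + 1) _).1 (ht' (n + 1) ⟨_, h⟩) (hg _ _) n
        (Nat.lt_succ_self n)
      have e' : cf (hg (n + 1) ⟨_, h⟩) n (resSt (i (n + 1) ⟨_, h⟩) t' -
        (show St (pr (V (n + 1) ⟨_, h⟩)) from s (n + 1) ⟨_, h⟩)) = 0 := e
      rwa [cf_sub, cf_res, sub_eq_zero] at e'
  poisson U a b c f g ha hb hc := by
    have h := St.red_comm (p := pr U) a b c hc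
    have ha' : St.red (pr U) a = fnHom (A := PC) U f := ha
    have hb' : St.red (pr U) b = fnHom (A := PC) U g := hb
    rw [ha', hb'] at h
    refine h.trans ?_
    show dU 0 U _ * dU 1 U _ - dU 1 U _ * dU 0 U _ = fnHom (A := PC) U (br f g)
    rw [dU_fn, dU_fn, dU_fn, dU_fn, br, map_sub, map_mul, map_mul]
    rfl

end Pool.Agent.MP_86c931_ag.H30
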