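import Pool.Agent.MP_86c931_ag.H30.Defs

/-! Geometry of the singular variety and its Poisson traces. -/

namespace Pool.Agent.MP_86c931_ag.H30

open AlgebraicGeometry CategoryTheory TopologicalSpace Opposite MvPolynomial

lemma mem_R {f : P} : f ∈ R ↔ ∀ i, constantCoeff (pderiv i f) = 0 := Iff.rfl

lemma br_mem {f g : P} (hf : f ∈ R) (hg : g ∈ R) : br f g ∈ R := by
  rw [mem_R] at hf hg ⊢
  intro i
  simp [br, Derivation.leibniz, hf, hg]

lemma const_br {f g : P} (hf : f ∈ R) : constantCoeff (br f g) = 0 := by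
  rw [mem_R] at hf
  simp [br, hf]

lemma mono_mem (s : Fin 2 →₀ ℕ) (hs : 2 ≤ s 0 + s 1) (c : ℂ) : monomial s c ∈ R := by
  intro i
  rw [pderiv_monomial, constantCoeff_monomial, if_neg]
  intro h
  have h0 := DFunLike.congr_fun h 0
  have h1 := DFunLike.congr_fun h 1
  fin_cases i <;> simp at h0 h1 <;> omega

lemma mul_mem_R {f g : P} (hf : constantCoeff f = 0) (hg : constantCoeff g = 0) : f * g ∈ R := by
  intro i
  simp [Derivation.leibniz, hf, hg]

lemma sq_mul_mem (f : P) : X 0 ^ 2 * f ∈ R := by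
  rw [pow_two, mul_assoc]
  exact mul_mem_R (by simp) (by simp)

instance : Module.Finite R P := by
  refine ⟨⟨{1, X 0, X 1}, ?_⟩⟩
  rw [eq_top_iff]
  rintro f -
  have h : f - C (constantCoeff (pderiv 0 f)) * X 0 - C (constantCoeff (pderiv 1 f)) * X 1 ∈ R := by
    intro i
    fin_cases i <;> simp [Derivation.leibniz, pderiv_X]
  have e : f = (⟨_, h⟩ : R) • (1 : P) + (algebraMap ℂ R (constantCoeff (pderiv 0 f))) • (X 0 : P) +
      (algebraMap ℂ R (constantCoeff (pderiv 1 f))) • (X 1 : P) := by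
    simp only [Subalgebra.smul_def, smul_eq_mul, mul_one, SubalgebraClass.coe_algebraMap,
      algebraMap_eq]
    ring
  rw [e]
  refine Submodule.add_mem _ (Submodule.add_mem _ ?_ ?_) ?_ <;>
    exact Submodule.smul_mem _ _ (Submodule.subset_span (by simp))

lemma finiteType_R : Algebra.FiniteType ℂ R :=
  ⟨fg_of_fg_of_fg ℂ R P Algebra.FiniteType.out Module.Finite.fg_top Subtype.val_injective⟩

lemma rho_finite : IsFinite (rho R) := by
  rw [rho, IsFinite.SpecMap_iff]
  exact (inferInstance : Module.Finite R P)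

lemma rho_proper : IsProper (rho R) := by
  have := rho_finite
  infer_instance

/-- the square of the first coordinate -/
noncomputable def xx : R := ⟨X 0 ^ 2, by simpa using sq_mul_mem 1⟩

lemma away_bij : Function.Bijective (Localization.awayMap R.val.toRingHom xx) := by
  constructor
  · rw [Localization.awayMap_injective_iff]
    intro a ha
    refine ⟨0, ?_⟩
    have : a = 0 := Subtype.val_injective ha
    simp [this]
  · rw [Localization.awayMap_surjective_iff]
    intro f
    exact ⟨⟨_, sq_mul_mem f⟩, 1, by simp [xx]⟩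

lemma isIso_restrict {A B : CommRingCat.{0}} (f : A ⟶ B) (r : A)
    (h : Function.Bijective (Localization.awayMap f.hom r)) :
    IsIso (Spec.map f ∣_ PrimeSpectrum.basicOpen r) := by
  have e := SpecMapRestrictBasicOpenIso f r
  have : IsIso (CommRingCat.ofHom (Localization.awayMap f.hom r)) :=
    (ConcreteCategory.isIso_iff_bijective _).2 h
  exact ((MorphismProperty.isomorphisms Scheme).arrow_mk_iso_iff e).2
    (inferInstanceAs (IsIso (Spec.map (CommRingCat.ofHom (Localization.awayMap f.hom r)))))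

lemma rho_birational : ∃ U : Sing.Opens, Dense (U : Set Sing) ∧ IsIso (rho R ∣_ U) := by
  refine ⟨PrimeSpectrum.basicOpen xx, ?_, ?_⟩
  · refine IsOpen.dense (PrimeSpectrum.basicOpen xx).isOpen ⟨(⊥ : PrimeSpectrum R), ?_⟩
    intro h
    have h1 : xx = 0 := h
    have h2 : (X 0 ^ 2 : P) = 0 := congrArg Subtype.val h1
    exact pow_ne_zero 2 (X_ne_zero 0) h2
  · exact isIso_restrict (CommRingCat.ofHom R.val.toRingHom) xx away_bij

/-- evaluation at the singular point -/
noncomputable def ev0 : R →ₗ[ℂ] ℂ where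
  toFun f := constantCoeff (f : P)
  map_add' f g := by simp
  map_smul' c f := by simp

lemma mono_bracket (s : Fin 2 →₀ ℕ) (hs : 2 ≤ s 0 + s 1) (c : ℂ) :
    ∃ f g : P, f ∈ R ∧ g ∈ R ∧ monomial s c = br f g := by
  by_cases h0 : s 0 = 0
  · obtain ⟨b, hb⟩ : ∃ b, s 1 = b + 2 := ⟨s 1 - 2, by omega⟩
    have hs' : s = Finsupp.single 1 (b + 2) := by
      ext i; fin_cases i <;> simp [h0, hb]
    refine ⟨X 0 * (C (c / 2) * X 1 ^ (b + 1)), X 1 * X 1, mul_mem_R (by simp) (by simp),
      mul_mem_R (by simp) (by simp), ?_⟩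
    have h2 : (C (c / 2) : P) * 2 = C c := by
      rw [← map_ofNat C, ← map_mul]; congr 1; ring
    rw [hs', ← C_mul_X_pow_eq_monomial, ← h2]
    simp [br, Derivation.leibniz, pderiv_X]
    ring
  · obtain ⟨a, ha⟩ : ∃ a, s 0 = a + 1 := ⟨s 0 - 1, by omega⟩
    have hs' : monomial s c = C c * X 0 ^ (a + 1) * X 1 ^ (s 1) := by
      rw [monomial_eq, Finsupp.prod_fintype _ _ (by simp), Fin.prod_univ_two, ha, mul_assoc]
    have hm : (C (c / (2 * (s 1 + 1))) * X 0 ^ a * X 1 ^ (s 1 + 1) : P) ∈ R := by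
      have := mono_mem (Finsupp.single 0 a + Finsupp.single 1 (s 1 + 1)) (by simp; omega)
        (c / (2 * (s 1 + 1)))
      rwa [monomial_eq, Finsupp.prod_fintype _ _ (by simp), Fin.prod_univ_two, ← mul_assoc,
        (by simp : (Finsupp.single (0 : Fin 2) a + Finsupp.single 1 (s 1 + 1) : Fin 2 →₀ ℕ) 0 = a),
        (by simp : (Finsupp.single (0 : Fin 2) a + Finsupp.single 1 (s 1 + 1) : Fin 2 →₀ ℕ) 1 =
          s 1 + 1)] at this
    refine ⟨X 0 * X 0, _, mul_mem_R (by simp) (by simp), hm, ?_⟩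
    have h1 : ((s 1 : ℂ) + 1) ≠ 0 := by exact_mod_cast Nat.succ_ne_zero (s 1)
    have h2 : (C (c / (2 * (s 1 + 1))) : P) * (2 * ((s 1 : P) + 1)) = C c := by
      rw [← map_ofNat C, ← map_natCast C, ← map_one C, ← map_add, ← map_mul, ← map_mul]
      congr 1
      field_simp
    rw [hs', ← h2]
    simp [br, Derivation.leibniz, pderiv_X]
    ring

lemma brackets_eq : brackets R = LinearMap.ker ev0 := by
  apply le_antisymm
  · rw [brackets, Submodule.span_le]
    rintro h ⟨f, g, hh⟩
    show constantCoeff (h : P) = 0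
    rw [hh, const_br f.2]
  · intro f hf
    have hf0 : constantCoeff (f : P) = 0 := hf
    have hdeg : ∀ s ∈ (f : P).support, 2 ≤ s 0 + s 1 := by
      intro s hs
      by_contra hlt
      apply mem_support_iff.1 hs
      have hc : ∀ i, coeff (Finsupp.single i 1) (f : P) = 0 := fun i => by
        have := f.2 i
        rw [constantCoeff_eq, coeff_pderiv] at this
        simpa using this
      have : s = 0 ∨ s = Finsupp.single 0 1 ∨ s = Finsupp.single 1 1 := by
        have : (s 0 = 0 ∧ s 1 = 0) ∨ (s 0 = 1 ∧ s 1 = 0) ∨ (s 0 = 0 ∧ s 1 = 1) := by omega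
        rcases this with h | h | h
        · left; ext i; fin_cases i <;> simp [h.1, h.2]
        · right; left; ext i; fin_cases i <;> simp [h.1, h.2]
        · right; right; ext i; fin_cases i <;> simp [h.1, h.2]
      rcases this with rfl | rfl | rfl
      · exact hf0
      · exact hc 0
      · exact hc 1
    have e : f = ∑ s ∈ (f : P).support.attach,
        (⟨monomial s.1 (coeff s.1 (f : P)), mono_mem _ (hdeg _ s.2) _⟩ : R) := by
      apply Subtype.val_injective
      rw [AddSubmonoidClass.coe_finsetSum]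
      simp only
      rw [Finset.sum_attach (f := fun s => monomial s (coeff s (f : P)))]
      exact (f : P).as_sum
    rw [e]
    refine Submodule.sum_mem _ fun s _ => Submodule.subset_span ?_
    obtain ⟨a, b, ha, hb, hab⟩ := mono_bracket s.1 (hdeg _ s.2) (coeff s.1 (f : P))
    exact ⟨⟨a, ha⟩, ⟨b, hb⟩, hab⟩

lemma finrank_HP0 : Module.finrank ℂ (R ⧸ brackets R) = 1 := by
  have hs : Function.Surjective ev0 := fun c => ⟨algebraMap ℂ R c, by simp [ev0]⟩
  rw [brackets_eq, (ev0.quotKerEquivOfSurjective hs).finrank_eq, Module.finrank_self]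

end Pool.Agent.MP_86c931_ag.H30
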