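import Pool.Agent.MP_86c931_ag.H56.RowsA

/-! Sections of a quantization of an integral scheme. -/

namespace Pool.Agent.MP_86c931_ag.H30

namespace SH

open AlgebraicGeometry CategoryTheory TopologicalSpace Opposite
open scoped PowerSeries
open Pool.Agent.MP_86c931_ag.H56

lemma tf_of_flat {C : Type} [Ring C] [Algebra ℂ⟦X⟧ C] (h : Module.Flat ℂ⟦X⟧ C) : TF C := by
  have hr := Module.Flat.isSMulRegular_of_nonZeroDivisors (M := C)
    (mem_nonZeroDivisors_of_ne_zero (PowerSeries.X_ne_zero (R := ℂ)))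
  intro c hc
  exact hr (hc.trans (smul_zero _).symm)

variable {Y : Scheme.{0}}

lemma finite_cover {U : Y.Opens} (hU : IsAffineOpen U) (g : U → Γ(Y, U))
    (hg : ∀ y, y.1 ∈ Y.basicOpen (g y)) :
    ∃ s : Finset U, (∀ y ∈ U, ∃ z ∈ s, y ∈ Y.basicOpen (g z)) ∧
      ∀ N : ℕ, ∃ a : U → Γ(Y, U), ∑ z ∈ s, a z * g z ^ N = 1 := by
  classical
  obtain ⟨s, hs⟩ := hU.isCompact.elim_finite_subcover
    (fun y : U => (Y.basicOpen (g y) : Set Y)) (fun y => (Y.basicOpen (g y)).isOpen)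
    (fun y hy => Set.mem_iUnion.2 ⟨⟨y, hy⟩, hg ⟨y, hy⟩⟩)
  have hc : ∀ y ∈ U, ∃ z ∈ s, y ∈ Y.basicOpen (g z) := fun y hy => by
    obtain ⟨z, hz⟩ := Set.mem_iUnion.1 (hs hy)
    obtain ⟨hz, h⟩ := Set.mem_iUnion.1 hz
    exact ⟨z, hz, h⟩
  refine ⟨s, hc, fun N => ?_⟩
  have h1 : Ideal.span (Set.range fun z : s => g z) = ⊤ := by
    rw [← hU.self_le_iSup_basicOpen_iff]
    intro y hy
    obtain ⟨z, hz, h⟩ := hc y hy
    exact Opens.mem_iSup.2 ⟨⟨g z, ⟨z, hz⟩, rfl⟩, h⟩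
  have h2 := Ideal.span_pow_eq_top _ h1 N
  rw [← Set.range_comp] at h2
  obtain ⟨c, hc⟩ := Ideal.mem_span_range_iff_exists_fun.1
    (h2 ▸ Submodule.mem_top : (1 : Γ(Y, U)) ∈ _)
  refine ⟨fun z => if h : z ∈ s then c ⟨z, h⟩ else 0, ?_⟩
  refine (Finset.sum_coe_sort s _).symm.trans (Eq.trans ?_ hc)
  refine Finset.sum_congr rfl fun z _ => ?_
  simp only [dif_pos z.2, Function.comp_apply]

variable [IsIntegral Y]

/-- vanishing of the first cohomology of the structure sheaf -/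
def H1 (U : Y.Opens) : Prop :=
  ∀ (V : U → Y.Opens), (∀ y, V y ≤ U) → (∀ y, y.1 ∈ V y) → ∀ k : U → Y.functionField,
    (∀ y z, Reg (V y ⊓ V z) (k y - k z)) → ∃ k0, ∀ y, Reg (V y) (k y - k0)

lemma h1_affine {U : Y.Opens} (hU : IsAffineOpen U) : H1 U := by
  classical
  intro V hVU hV k hk
  choose g hgV hg using fun y : U => hU.exists_basicOpen_le (V := V y) ⟨y.1, hV y⟩ y.2
  obtain ⟨s, hs, hsN⟩ := finite_cover hU g hg
  have h1 : ∀ z w, ∃ (n : ℕ) (f : Γ(Y, U)), ∀ h,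
      (k z - k w) * emb U h (g z * g w) ^ n = emb U h f := by
    intro z w
    have hm : gp Y ∈ Y.basicOpen (g z * g w) := by
      rw [Scheme.basicOpen_mul]
      exact ⟨gen_mem (hg z), gen_mem (hg w)⟩
    obtain ⟨n, f, hf⟩ := (reg_basicOpen_iff hU _ hm (k z - k w)).1 ((hk z w).mono (by
      rw [Scheme.basicOpen_mul]
      exact inf_le_inf (hgV z) (hgV w)))
    exact ⟨n, f, fun h => (hf h).symm⟩
  choose n f hf using h1
  set N := (s ×ˢ s).sup fun p => n p.1 p.2 with hN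
  obtain ⟨a, ha⟩ := hsN N
  by_cases h : gp Y ∈ U
  swap
  · exact ⟨0, fun y => (h (gen_mem y.2)).elim⟩
  refine ⟨∑ w ∈ s, emb U h (a w * g w ^ N) * k w, fun y => reg_glue fun u hu => ?_⟩
  obtain ⟨z, hz, huz⟩ := hs u (hVU y hu)
  refine ⟨V y ⊓ Y.basicOpen (g z), inf_le_left, ⟨hu, huz⟩, ?_⟩
  have e : k y - ∑ w ∈ s, emb U h (a w * g w ^ N) * k w =
      (k y - k z) + (k z - ∑ w ∈ s, emb U h (a w * g w ^ N) * k w) := by ring
  rw [e]
  refine ((hk y z).mono (inf_le_inf_left _ (hgV z))).add (Reg.mono inf_le_right ?_)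
  refine (reg_basicOpen_iff hU _ (gen_mem huz) _).2
    ⟨N, ∑ w ∈ s, a w * (f z w * (g z * g w) ^ (N - n z w)), fun h' => Eq.symm ?_⟩
  have e1 : k z = ∑ w ∈ s, emb U h (a w * g w ^ N) * k z := by
    rw [← Finset.sum_mul, ← map_sum, ha, map_one, one_mul]
  rw [e1, ← Finset.sum_sub_distrib, Finset.sum_mul, map_sum]
  refine Finset.sum_congr rfl fun w hw => ?_
  have hle : n z w ≤ N :=
    Finset.le_sup (f := fun p : U × U => n p.1 p.2) (b := (z, w))
      (Finset.mem_product.2 ⟨hz, hw⟩)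
  obtain ⟨m, hm⟩ := Nat.exists_eq_add_of_le hle
  rw [hm, Nat.add_sub_cancel_left, map_mul (emb U h') (a w) (f z w * _),
    map_mul (emb U h') (f z w), ← hf]
  simp only [map_mul, map_pow]
  ring

lemma h1_top {κ : Type} (U : κ → Y.Opens) (hU : ∀ k, IsAffineOpen (U k)) (hc : ∀ y, ∃ k, y ∈ U k)
    (hw : ∀ w : κ → Y.functionField, (∀ k l, Reg (U k ⊓ U l) (w k - w l)) →
      ∃ c, ∀ k, Reg (U k) (w k - c)) : H1 (⊤ : Y.Opens) := by
  intro V _ hV k hk
  have h1 : ∀ i, ∃ w, ∀ y : U i, Reg (V ⟨y.1, trivial⟩ ⊓ U i) (k ⟨y.1, trivial⟩ - w) := fun i =>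
    h1_affine (hU i) (fun y => V ⟨y.1, trivial⟩ ⊓ U i) (fun _ => inf_le_right)
      (fun y => ⟨hV ⟨y.1, trivial⟩, y.2⟩) (fun y => k ⟨y.1, trivial⟩)
      fun y z => (hk _ _).mono (inf_le_inf inf_le_left inf_le_left)
  choose w hw' using h1
  obtain ⟨c, hc'⟩ := hw w fun i j => reg_glue fun y hy => by
    refine ⟨V ⟨y, trivial⟩ ⊓ (U i ⊓ U j), inf_le_right, ⟨hV ⟨y, trivial⟩, hy⟩, ?_⟩
    have e : w i - w j = (k ⟨y, trivial⟩ - w j) - (k ⟨y, trivial⟩ - w i) := by ring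
    rw [e]
    exact ((hw' j ⟨y, hy.2⟩).mono (inf_le_inf_left _ inf_le_right)).sub
      ((hw' i ⟨y, hy.1⟩).mono (inf_le_inf_left _ inf_le_left))
  refine ⟨c, fun y => reg_glue fun z hz => ?_⟩
  obtain ⟨i, hi⟩ := hc z
  refine ⟨V y ⊓ (V ⟨z, trivial⟩ ⊓ U i), inf_le_left, ⟨hz, hV ⟨z, trivial⟩, hi⟩, ?_⟩
  have e : k y - c = (k y - k ⟨z, trivial⟩) + ((k ⟨z, trivial⟩ - w i) + (w i - c)) := by ring
  rw [e]
  exact ((hk _ _).mono (inf_le_inf_left _ inf_le_left)).add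
    (Reg.mono inf_le_right ((hw' i ⟨z, hi⟩).add ((hc' i).mono inf_le_right)))

variable (Y) in
/-- the part of the data of a quantization that is used here -/
structure Qz where
  /-- the underlying presheaf of algebras -/
  B : TopCat.Presheaf (AlgCat.{0} ℂ⟦X⟧) Y
  /-- the reduction modulo `h` -/
  π : ∀ U : Y.Opens, B.obj (op U) →+* Γ(Y, U)
  flat : ∀ U : Y.Opens, Module.Flat ℂ⟦X⟧ (B.obj (op U))
  complete : Complete B
  π_res : ∀ (U V : Y.Opens) (i : V ≤ U) (b : B.obj (op U)), π V (resB B i b) = resO i (π U b)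
  π_ker : ∀ (U : Y.Opens) (b : B.obj (op U)), π U b = 0 ↔ Divisible B 1 b
  loc : ∀ (U : Y.Opens) (f : Γ(Y, U)) (y : Y), y ∈ U →
    ∃ (V : Y.Opens) (i : V ≤ U), y ∈ V ∧ ∃ b, π V b = resO i f

namespace Qz

section

omit [IsIntegral Y]

variable (Q : Qz Y)

/-- restriction in the quantization -/
noncomputable def rb {U V : Y.Opens} (i : V ≤ U) : Q.B.obj (op U) →ₐ[ℂ⟦X⟧] Q.B.obj (op V) :=
  (Q.B.map (homOfLE i).op).hom

lemma rb_rb {U V W : Y.Opens} (i : V ≤ U) (j : W ≤ V) (s : Q.B.obj (op U)) :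
    Q.rb j (Q.rb i s) = Q.rb (j.trans i) s := by
  show (Q.B.map (homOfLE j).op).hom ((Q.B.map (homOfLE i).op).hom s) = _
  rw [← AlgCat.comp_apply, ← Functor.map_comp]
  rfl

lemma rb_self {U : Y.Opens} (s : Q.B.obj (op U)) : Q.rb le_rfl s = s := by
  show (Q.B.map (homOfLE le_rfl).op).hom s = s
  have : (homOfLE (le_rfl : U ≤ U)).op = 𝟙 _ := rfl
  rw [this, CategoryTheory.Functor.map_id]
  rfl

lemma π_rb {U V : Y.Opens} (i : V ≤ U) (b : Q.B.obj (op U)) :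
    Q.π V (Q.rb i b) = rs i (Q.π U b) := Q.π_res U V i b

lemma tf (U : Y.Opens) : TF (Q.B.obj (op U)) := tf_of_flat (Q.flat U)

lemma ker {U : Y.Opens} {b : Q.B.obj (op U)} (h : Q.π U b = 0) : ∃ c, b = hb • c := by
  obtain ⟨c, hc⟩ := (Q.π_ker U b).1 h
  exact ⟨c, by rw [hc, pow_one]⟩

lemma π_eq {n : ℕ} {U : Y.Opens} {b : Q.B.obj (op U)} (h : Dv (n + 1) b) : Q.π U b = 0 :=
  (Q.π_ker U _).2 (h.mono (Nat.le_add_left 1 n))

lemma cancel {U : Y.Opens} (n : ℕ) {a b : Q.B.obj (op U)} (h : hb ^ n • a = hb ^ n • b) :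
    a = b :=
  sub_eq_zero.1 ((Q.tf U).pow n _ (by rw [smul_sub, h, sub_self]))

end

variable {Q : Qz Y}

lemma of_res {n : ℕ} {U : Y.Opens} {b : Q.B.obj (op U)}
    (h : gp Y ∈ U → ∃ (V : Y.Opens) (i : V ≤ U), gp Y ∈ V ∧ Dv n (Q.rb i b)) : Dv n b := by
  induction n generalizing b with
  | zero => exact Dv.triv b
  | succ n ih =>
    have h0 : Q.π U b = 0 := by
      refine ext_emb fun hU => ?_
      obtain ⟨V, i, hV, hd⟩ := h hU
      rw [← emb_rs i hV, ← π_rb, Q.π_eq hd, map_zero, map_zero]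
    obtain ⟨c, rfl⟩ := Q.ker h0
    refine Dv.hb_smul (ih fun hU => ?_)
    obtain ⟨V, i, hV, hd⟩ := h hU
    refine ⟨V, i, hV, (Q.tf V).dv_of_smul (m := 1) ?_⟩
    rwa [pow_one, ← map_smul, add_comm]

variable (Q) in
/-- local sections near every point of `U` -/
structure Raw (U : Y.Opens) where
  /-- neighbourhoods -/
  V : U → Y.Opens
  le : ∀ y, V y ≤ U
  mem : ∀ y, y.1 ∈ V y
  /-- sections -/
  s : ∀ y, Q.B.obj (op (V y))

variable {U : Y.Opens}

/-- agreement modulo a power of `h` -/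
def Near (n : ℕ) (a b : Q.Raw U) : Prop :=
  ∀ y z (W : Y.Opens) (i : W ≤ a.V y) (j : W ≤ b.V z), Dv n (Q.rb i (a.s y) - Q.rb j (b.s z))

omit [IsIntegral Y] in
lemma Near.symm {n : ℕ} {a b : Q.Raw U} (h : Near n a b) : Near n b a := fun y z W i j => by
  have := (h z y W j i).neg
  rwa [neg_sub] at this

omit [IsIntegral Y] in
lemma Near.mono {n m : ℕ} {a b : Q.Raw U} (h : Near n a b) (hm : m ≤ n) : Near m a b :=
  fun y z W i j => (h y z W i j).mono hm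

lemma Near.trans {n : ℕ} {a b c : Q.Raw U} (h : Near n a b) (h' : Near n b c) : Near n a c := by
  intro y z W i j
  refine of_res fun hW => ⟨W ⊓ b.V y, inf_le_left, ⟨hW, gen_mem (b.mem y)⟩, ?_⟩
  rw [map_sub, rb_rb, rb_rb]
  have := (h y y (W ⊓ b.V y) (inf_le_left.trans i) inf_le_right).add
    (h' y z (W ⊓ b.V y) inf_le_right (inf_le_left.trans j))
  rwa [sub_add_sub_cancel] at this

lemma step (hU : gp Y ∈ U) (H : H1 U) {n : ℕ} (a : Q.Raw U) (ha : Near n a a) :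
    ∃ b : Q.Raw U, Near (n + 1) b b ∧ Near n b a := by
  choose c hc using fun y z => ha y z (a.V y ⊓ a.V z) inf_le_left inf_le_right
  have hg : ∀ y z, gp Y ∈ a.V y ⊓ a.V z := fun y z => ⟨gen_mem (a.mem y), gen_mem (a.mem z)⟩
  let g : U → U → Y.functionField := fun y z => emb _ (hg y z) (Q.π _ (c y z))
  have hc' : ∀ y z (W : Y.Opens) (i : W ≤ a.V y) (j : W ≤ a.V z),
      Q.rb i (a.s y) - Q.rb j (a.s z) = hb ^ n • Q.rb (le_inf i j) (c y z) := by
    intro y z W i j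
    rw [← map_smul, ← hc, map_sub, rb_rb, rb_rb]
  have hcoc : ∀ y z w, g y z + g z w = g y w := by
    intro y z w
    let W := a.V y ⊓ a.V z ⊓ a.V w
    have iy : W ≤ a.V y := inf_le_left.trans inf_le_left
    have iz : W ≤ a.V z := inf_le_left.trans inf_le_right
    have iw : W ≤ a.V w := inf_le_right
    have hW : gp Y ∈ W := ⟨hg y z, gen_mem (a.mem w)⟩
    have e : Q.rb (le_inf iy iz) (c y z) + Q.rb (le_inf iz iw) (c z w) =
        Q.rb (le_inf iy iw) (c y w) := by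
      apply Q.cancel n
      rw [smul_add, ← hc' y z W iy iz, ← hc' z w W iz iw, ← hc' y w W iy iw, sub_add_sub_cancel]
    have := congrArg (fun b => emb W hW (Q.π W b)) e
    simpa only [map_add, π_rb, emb_rs] using this
  let p : U := ⟨gp Y, hU⟩
  obtain ⟨k0, hk0⟩ := H a.V a.le a.mem (fun y => g y p) (fun y z => by
    rw [← hcoc y z p, add_sub_cancel_right]
    exact reg_emb _ _ _)
  choose t ht using hk0
  choose V' i' hV' b hb' using fun y => Q.loc (a.V y) (t y) y (a.mem y)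
  refine ⟨⟨V', fun y => (i' y).trans (a.le y), hV',
    fun y => Q.rb (i' y) (a.s y) - hb ^ n • b y⟩, ?_, ?_⟩
  · intro y z W i j
    simp only [map_sub, map_smul, rb_rb]
    have e : Q.π W (Q.rb (le_inf (i.trans (i' y)) (j.trans (i' z))) (c y z) - Q.rb i (b y) +
        Q.rb j (b z)) = 0 := by
      refine ext_emb fun hW => ?_
      have hby : Q.π _ (b y) = rs (i' y) (t y) := hb' y
      have hbz : Q.π _ (b z) = rs (i' z) (t z) := hb' z
      simp only [map_add, map_sub, π_rb, emb_rs, hby, hbz, ht, map_zero]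
      show g y z - (g y p - k0) + (g z p - k0) = 0
      rw [← hcoc y z p]
      ring
    obtain ⟨e', he'⟩ := Q.ker e
    refine ⟨e', ?_⟩
    rw [pow_succ, mul_smul, ← he', smul_add, smul_sub,
      ← hc' y z W (i.trans (i' y)) (j.trans (i' z))]
    abel
  · intro y z W i j
    simp only [map_sub, map_smul, rb_rb]
    refine ⟨Q.rb (le_inf (i.trans (i' y)) j) (c y z) - Q.rb i (b y), ?_⟩
    rw [smul_sub, ← hc' y z W (i.trans (i' y)) j]
    abel

theorem lift (hU : gp Y ∈ U) (H : H1 U) {n : ℕ} (a : Q.Raw U) (ha : Near n a a) :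
    ∃ t : Q.B.obj (op U), ∀ y, Dv n (Q.rb (a.le y) t - a.s y) := by
  choose nx hnx1 hnx2 using fun (m : ℕ) (a : {a : Q.Raw U // Near (n + m) a a}) =>
    step hU H a.1 a.2
  let seq : ∀ m : ℕ, {a : Q.Raw U // Near (n + m) a a} := fun m =>
    Nat.rec ⟨a, ha⟩ (fun m a => ⟨nx m a, hnx1 m a⟩) m
  have hs : ∀ m, Near (n + m) (seq (m + 1)).1 (seq m).1 := fun m => hnx2 m (seq m)
  have hall : ∀ l m, l ≤ m → Near (n + l) (seq l).1 (seq m).1 := by
    intro l m hlm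
    induction m, hlm using Nat.le_induction with
    | base => exact (seq l).2
    | succ m hlm ih => exact ih.trans ((hs m).mono (Nat.add_le_add_left hlm n)).symm
  obtain ⟨t, ht, -⟩ := Q.complete U (fun m y => (seq m).1.V y) (fun m y => (seq m).1.le y)
    (fun m y => (seq m).1.s y) (fun m y => (seq m).1.mem y)
    (fun l m y z hlm => (hall l m hlm).mono (Nat.le_add_left l n) y z _ inf_le_left inf_le_right)
  refine ⟨t, fun y => of_res fun hy => ⟨(seq n).1.V y ⊓ a.V y, inf_le_right,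
    ⟨gen_mem ((seq n).1.mem y), hy⟩, ?_⟩⟩
  have h1 : Dv n (Q.rb ((seq n).1.le y) t - (seq n).1.s y) := ht n y
  have h2 : Near n (seq n).1 a := (hall 0 n (Nat.zero_le n)).symm
  have h3 := (h1.map (Q.rb (inf_le_left : (seq n).1.V y ⊓ a.V y ≤ _))).add
    (h2 y y _ inf_le_left inf_le_right)
  rw [map_sub, sub_add_sub_cancel, rb_rb] at h3
  rwa [map_sub, rb_rb]

theorem π_surjective (Q : Qz Y) (H : H1 U) : Function.Surjective (Q.π U) := by
  intro f
  by_cases hU : gp Y ∈ U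
  swap
  · exact ⟨0, ext_emb fun h => (hU h).elim⟩
  choose V i hV b hb' using fun y : U => Q.loc U f y y.2
  let a0 : Q.Raw U := ⟨V, i, hV, b⟩
  have hb'' : ∀ y, Q.π _ (b y) = rs (i y) f := hb'
  have h0 : Near 1 a0 a0 := by
    intro y z W i' j'
    have : Q.π W (Q.rb i' (b y) - Q.rb j' (b z)) = 0 := by
      rw [map_sub, π_rb, π_rb, hb'', hb'', rs_rs, rs_rs, sub_self]
    exact (Q.π_ker W _).1 this
  obtain ⟨t, ht⟩ := lift hU H a0 h0
  refine ⟨t, ext_emb fun hT => ?_⟩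
  have h3 : Q.π _ (Q.rb (i ⟨_, hU⟩) t - b ⟨_, hU⟩) = 0 := Q.π_eq (ht ⟨_, hU⟩)
  rw [map_sub, sub_eq_zero, π_rb, hb''] at h3
  have := congrArg (emb _ (hV ⟨_, hU⟩)) h3
  rwa [emb_rs, emb_rs] at this

theorem seqComplete (Q : Qz Y) (U : Y.Opens) : SeqComplete (Q.B.obj (op U)) := by
  intro u hu
  have hall : ∀ n m, n ≤ m → Dv n (u n - u m) := by
    intro n m hnm
    induction m, hnm using Nat.le_induction with
    | base => rw [sub_self]; exact Dv.zero n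
    | succ m hnm ih =>
      have := ih.add ((hu m).mono hnm)
      rwa [sub_add_sub_cancel] at this
  obtain ⟨t, ht, ht'⟩ := Q.complete U (fun _ _ => U) (fun _ _ => le_rfl)
    (fun n _ => u n) (fun _ y => y.2)
    (fun n m y z hnm => by
      have := (hall n m hnm).map (Q.rb (inf_le_left : U ⊓ U ≤ U))
      rwa [map_sub] at this)
  refine ⟨t, fun n => of_res fun hU => ⟨U, le_rfl, hU, ?_⟩, fun t' h' => ht' t' fun n _ => ?_⟩
  · have : Dv n (Q.rb le_rfl t - u n) := ht n ⟨gp Y, hU⟩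
    rwa [rb_self] at this ⊢
  · have := h' n
    rw [← Q.rb_self t'] at this
    exact this

theorem glue (Q : Qz Y) {κ : Type} (U : κ → Y.Opens) (hc : ∀ y, ∃ k, y ∈ U k)
    (H : H1 (⊤ : Y.Opens)) (n : ℕ) (b : ∀ k, Q.B.obj (op (U k)))
    (hb' : ∀ k l, Dv n (Q.rb (inf_le_left : U k ⊓ U l ≤ U k) (b k) -
      Q.rb (inf_le_right : U k ⊓ U l ≤ U l) (b l))) :
    ∃ a : Q.B.obj (op ⊤), ∀ k, Dv n (Q.rb (le_top : U k ≤ ⊤) a - b k) := by
  choose κ' hκ using hc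
  let a0 : Q.Raw ⊤ := ⟨fun y => U (κ' y.1), fun _ => le_top, fun y => hκ y.1, fun y => b (κ' y.1)⟩
  have h0 : Near n a0 a0 := by
    intro y z W i j
    have := (hb' (κ' y.1) (κ' z.1)).map (Q.rb (le_inf i j))
    rwa [map_sub, rb_rb, rb_rb] at this
  obtain ⟨t, ht⟩ := lift (U := ⊤) trivial H a0 h0
  refine ⟨t, fun k => of_res fun hk => ⟨U (κ' (gp Y)) ⊓ U k, inf_le_right, ⟨hκ _, hk⟩, ?_⟩⟩
  have h1 : Dv n (Q.rb (le_top : U (κ' (gp Y)) ≤ ⊤) t - b (κ' (gp Y))) := ht ⟨gp Y, trivial⟩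
  have h3 := (h1.map (Q.rb (inf_le_left : U (κ' (gp Y)) ⊓ U k ≤ _))).add (hb' _ k)
  rw [map_sub, sub_add_sub_cancel, rb_rb] at h3
  rwa [map_sub, rb_rb]

end Qz

end SH

open AlgebraicGeometry Pool.Agent.MP_86c931_ag.H56 in
theorem rowSH : RowSH := by
  intro R _ _ β Y _ ρ B π h
  let Q : SH.Qz Y := ⟨B, π, h.2.1, h.2.2.1, h.2.2.2.1.1, h.2.2.2.1.2.2.1, h.2.2.2.1.2.2.2⟩
  refine ⟨Q.tf, Q.seqComplete, fun U V i hV n b hd => ?_,
    fun U hU => Q.π_surjective (SH.h1_affine hU), fun κ U hU hc hw => ?_⟩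
  · exact SH.Qz.of_res (Q := Q) fun _ => ⟨V, i, hV, hd⟩
  · exact ⟨Q.π_surjective (SH.h1_top U hU hc hw), Q.glue U hc (SH.h1_top U hU hc hw)⟩

end Pool.Agent.MP_86c931_ag.H30
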