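import Mathlib

/-! The notions used in the statement. -/

namespace Pool.Agent.MP_86c931_ag.H30

open AlgebraicGeometry CategoryTheory TopologicalSpace Opposite
open scoped PowerSeries TensorProduct

/-- The Poisson bracket of the standard symplectic form of the plane. -/
noncomputable def br (f g : MvPolynomial (Fin 2) ℂ) : MvPolynomial (Fin 2) ℂ :=
  MvPolynomial.pderiv 0 f * MvPolynomial.pderiv 1 g -
    MvPolynomial.pderiv 1 f * MvPolynomial.pderiv 0 g

/-- The span `{R, R}` of all Poisson brackets of elements of a subalgebra `R`. -/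
noncomputable def brackets (R : Subalgebra ℂ (MvPolynomial (Fin 2) ℂ)) : Submodule ℂ R :=
  Submodule.span ℂ {h : R | ∃ f g : R, h.1 = br f.1 g.1}

/-- The morphism `Spec ℂ[x,y] → Spec R` induced by the inclusion. -/
noncomputable def rho (R : Subalgebra ℂ (MvPolynomial (Fin 2) ℂ)) :
    Spec (CommRingCat.of (MvPolynomial (Fin 2) ℂ)) ⟶ Spec (CommRingCat.of R) :=
  Spec.map (CommRingCat.ofHom R.val.toRingHom)

section

variable {P : CommRingCat.{0}} (B : TopCat.Presheaf (AlgCat.{0} ℂ⟦X⟧) (Spec P))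

/-- An element of `P` viewed as a section of the structure sheaf of `Spec P` over `U`. -/
noncomputable def fn (f : P) (U : (Spec P).Opens) : Γ(Spec P, U) :=
  (Spec P).presheaf.map (homOfLE le_top).op ((Scheme.ΓSpecIso P).inv f)

/-- Restriction of regular functions. -/
noncomputable def resO {U V : (Spec P).Opens} (i : V ≤ U) (f : Γ(Spec P, U)) : Γ(Spec P, V) :=
  (Spec P).presheaf.map (homOfLE i).op f

/-- Restriction of sections of `B`. -/
noncomputable def resB {U V : (Spec P).Opens} (i : V ≤ U) (b : B.obj (op U)) : B.obj (op V) :=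
  B.map (homOfLE i).op b

/-- The section `b` is divisible by `h^n`. -/
def Divisible (n : ℕ) {U : (Spec P).Opens} (b : B.obj (op U)) : Prop :=
  ∃ c : B.obj (op U), b = (PowerSeries.X : ℂ⟦X⟧) ^ n • c

/-- `B(U) → lim_n (B / h^n B)(U)` is bijective for all `U`; a section of the quotient sheaf
`B / h^n B` over `U` is represented by sections `s n y` of `B` on neighbourhoods `V n y` of the
points `y` of `U`. -/
def Complete : Prop :=
  ∀ (U : (Spec P).Opens) (V : ℕ → U → (Spec P).Opens) (i : ∀ n y, V n y ≤ U)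
    (s : ∀ n y, B.obj (op (V n y))), (∀ n y, y.1 ∈ V n y) →
    (∀ n m y z, n ≤ m → Divisible B n
      (resB B (inf_le_left : V n y ⊓ V m z ≤ V n y) (s n y) -
        resB B (inf_le_right : V n y ⊓ V m z ≤ V m z) (s m z))) →
    ∃! t : B.obj (op U), ∀ n y, Divisible B n (resB B (i n y) t - s n y)

variable (π : ∀ U : (Spec P).Opens, B.obj (op U) →+* Γ(Spec P, U))

/-- `π` is a morphism of sheaves of rings over `ℂ⟦h⟧ → ℂ` inducing `B / h B ≅ O`;
`ι` is the structure map of the `ℂ`-algebra `P`. -/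
def IsReduction (ι : ℂ →+* P) : Prop :=
  (∀ (U V : (Spec P).Opens) (i : V ≤ U) (b : B.obj (op U)), π V (resB B i b) = resO i (π U b)) ∧
  (∀ (U : (Spec P).Opens) (c : ℂ⟦X⟧),
    π U (algebraMap ℂ⟦X⟧ (B.obj (op U)) c) = fn (ι (PowerSeries.constantCoeff c)) U) ∧
  (∀ (U : (Spec P).Opens) (b : B.obj (op U)), π U b = 0 ↔ Divisible B 1 b) ∧
  (∀ (U : (Spec P).Opens) (f : Γ(Spec P, U)) (y : Spec P), y ∈ U →
    ∃ (V : (Spec P).Opens) (i : V ≤ U), y ∈ V ∧ ∃ b, π V b = resO i f)

/-- `h⁻¹ [a,b]` induces the bracket `β`. -/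
def InducesBracket (β : P → P → P) : Prop :=
  ∀ (U : (Spec P).Opens) (a b c : B.obj (op U)) (f g : P), π U a = fn f U → π U b = fn g U →
    a * b - b * a = (PowerSeries.X : ℂ⟦X⟧) • c → π U c = fn (β f g) U

/-- A quantization of `Spec P` with the Poisson bracket `β`: a sheaf `B` of flat associative
`ℂ⟦h⟧`-algebras, complete in the `h`-adic topology, with an isomorphism `B / h B ≅ O` (given by
`π`) under which `h⁻¹ [a,b]` induces the bracket. -/
def IsQuantization (ι : ℂ →+* P) (β : P → P → P) : Prop :=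
  B.IsSheaf ∧ (∀ U : (Spec P).Opens, Module.Flat ℂ⟦X⟧ (B.obj (op U))) ∧ Complete B ∧
    IsReduction B π ι ∧ InducesBracket B π β

end

/-- The zeroth Hochschild homology of `A[h⁻¹] = ℂ((h)) ⊗ A` over `ℂ((h)) = ℂ⟦h⟧[h⁻¹]`. -/
def HH0 (A : Type) [Ring A] [Algebra ℂ⟦X⟧ A] : Type :=
  (Localization.Away (PowerSeries.X : ℂ⟦X⟧) ⊗[ℂ⟦X⟧] A) ⧸
    Submodule.span (Localization.Away (PowerSeries.X : ℂ⟦X⟧))
      {z : Localization.Away (PowerSeries.X : ℂ⟦X⟧) ⊗[ℂ⟦X⟧] A | ∃ a b, z = a * b - b * a}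

end Pool.Agent.MP_86c931_ag.H30
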