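import Mathlib

/-! The normal ordered star product attached to two commuting derivations. -/

namespace Pool.Agent.MP_86c931_ag.H30

open Finset PowerSeries

section abstract

variable {T : Type*} [CommRing T] [Algebra ℂ T] (D E : Derivation ℂ T T)

/-- the bidifferential operators -/
noncomputable def Cop (k : ℕ) (F G : T) : T := ((k.factorial : ℂ)⁻¹) • (D^[k] F * E^[k] G)

lemma iter_add (k : ℕ) (F G : T) : D^[k] (F + G) = D^[k] F + D^[k] G := by
  induction k generalizing F G with
  | zero => rfl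
  | succ k ih => simp only [Function.iterate_succ_apply, map_add, ih]

lemma iter_const_mul (k : ℕ) (c F : T) (hc : D c = 0) : D^[k] (c * F) = c * D^[k] F := by
  induction k generalizing F with
  | zero => rfl
  | succ k ih =>
    rw [Function.iterate_succ_apply, Function.iterate_succ_apply, Derivation.leibniz, hc, smul_zero,
      add_zero, smul_eq_mul, ih]

lemma iter_zero (k : ℕ) : D^[k] (0 : T) = 0 := by
  induction k with
  | zero => rfl
  | succ k ih => rw [Function.iterate_succ_apply, map_zero, ih]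

lemma Cop_zero (F G : T) : Cop D E 0 F G = F * G := by simp [Cop]

lemma Cop_add_left (k : ℕ) (F F' G : T) : Cop D E k (F + F') G = Cop D E k F G + Cop D E k F' G := by
  simp only [Cop, iter_add, add_mul, smul_add]

lemma Cop_add_right (k : ℕ) (F G G' : T) :
    Cop D E k F (G + G') = Cop D E k F G + Cop D E k F G' := by
  simp only [Cop, iter_add, mul_add, smul_add]

lemma Cop_mul_left (k : ℕ) (c F G : T) (hc : D c = 0) :
    Cop D E k (c * F) G = c * Cop D E k F G := by
  simp only [Cop, iter_const_mul D k c F hc, mul_smul_comm, mul_assoc]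

lemma Cop_mul_right (k : ℕ) (c F G : T) (hc : E c = 0) :
    Cop D E k F (c * G) = c * Cop D E k F G := by
  simp only [Cop, iter_const_mul E k c G hc, mul_smul_comm, mul_left_comm]

lemma Cop_zero_left (k : ℕ) (G : T) : Cop D E k 0 G = 0 := by
  simp only [Cop, iter_zero, zero_mul, smul_zero]

lemma Cop_zero_right (k : ℕ) (F : T) : Cop D E k F 0 = 0 := by
  simp only [Cop, iter_zero, mul_zero, smul_zero]

lemma Cop_sum_left {ι : Type*} (s : Finset ι) (k : ℕ) (F : ι → T) (G : T) :
    Cop D E k (∑ i ∈ s, F i) G = ∑ i ∈ s, Cop D E k (F i) G := by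
  classical
  induction s using Finset.induction_on with
  | empty => simp [Cop_zero_left]
  | insert a s ha ih => rw [sum_insert ha, sum_insert ha, Cop_add_left, ih]

lemma Cop_sum_right {ι : Type*} (s : Finset ι) (k : ℕ) (F : T) (G : ι → T) :
    Cop D E k F (∑ i ∈ s, G i) = ∑ i ∈ s, Cop D E k F (G i) := by
  classical
  induction s using Finset.induction_on with
  | empty => simp [Cop_zero_right]
  | insert a s ha ih => rw [sum_insert ha, sum_insert ha, Cop_add_right, ih]

lemma Cop_succ (k : ℕ) (F G : T) :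
    ((k : ℂ) + 1) • Cop D E (k + 1) F G = Cop D E k (D F) (E G) := by
  have h1 : ((k : ℂ) + 1) ≠ 0 := by exact_mod_cast Nat.succ_ne_zero k
  have h2 : ((k.factorial : ℂ)) ≠ 0 := by exact_mod_cast Nat.factorial_ne_zero k
  simp only [Cop, Function.iterate_succ_apply, smul_smul]
  congr 1
  rw [Nat.factorial_succ]
  push_cast
  field_simp

lemma Cop_smul_left (k : ℕ) (a : ℂ) (F G : T) : Cop D E k (a • F) G = a • Cop D E k F G := by
  rw [Algebra.smul_def, Algebra.smul_def, Cop_mul_left _ _ _ _ _ _ (Derivation.map_algebraMap D a)]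

lemma Cop_smul_right (k : ℕ) (a : ℂ) (F G : T) : Cop D E k F (a • G) = a • Cop D E k F G := by
  rw [Algebra.smul_def, Algebra.smul_def,
    Cop_mul_right _ _ _ _ _ _ (Derivation.map_algebraMap E a)]

variable {D E}

lemma D_Cop (h : ∀ f, D (E f) = E (D f)) (k : ℕ) (F G : T) :
    D (Cop D E k F G) = Cop D E k (D F) G + Cop D E k F (D G) := by
  have h1 : D (D^[k] F) = D^[k] (D F) := by
    rw [← Function.iterate_succ_apply' D, Function.iterate_succ_apply]
  have h2 : D (E^[k] G) = E^[k] (D G) :=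
    (Function.Commute.iterate_right (f := D) (g := E) h k) G
  simp only [Cop, Derivation.map_smul, Derivation.leibniz, smul_eq_mul, h1, h2]
  rw [← smul_add]
  congr 1
  ring

lemma E_Cop (h : ∀ f, D (E f) = E (D f)) (k : ℕ) (F G : T) :
    E (Cop D E k F G) = Cop D E k (E F) G + Cop D E k F (E G) := by
  have h1 : E (E^[k] G) = E^[k] (E G) := by
    rw [← Function.iterate_succ_apply' E, Function.iterate_succ_apply]
  have h2 : E (D^[k] F) = D^[k] (E F) :=
    (Function.Commute.iterate_right (f := E) (g := D) (fun f => (h f).symm) k) F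
  simp only [Cop, Derivation.map_smul, Derivation.leibniz, smul_eq_mul, h1, h2]
  rw [← smul_add]
  congr 1
  ring

lemma weight_split (n : ℕ) (u : ℕ × ℕ → T) :
    ((n : ℂ) + 1) • ∑ p ∈ antidiagonal (n + 1), u p =
      ∑ p ∈ antidiagonal n, ((p.1 : ℂ) + 1) • u (p.1 + 1, p.2) +
      ∑ p ∈ antidiagonal n, ((p.2 : ℂ) + 1) • u (p.1, p.2 + 1) := by
  have h : ((n : ℂ) + 1) • ∑ p ∈ antidiagonal (n + 1), u p =
      ∑ p ∈ antidiagonal (n + 1), (p.1 : ℂ) • u p + ∑ p ∈ antidiagonal (n + 1), (p.2 : ℂ) • u p := by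
    rw [← sum_add_distrib, smul_sum]
    refine sum_congr rfl fun p hp => ?_
    rw [← add_smul]
    have := mem_antidiagonal.1 hp
    congr 1
    exact_mod_cast this.symm
  rw [h, Finset.Nat.sum_antidiagonal_succ (f := fun p => (p.1 : ℂ) • u p),
    Finset.Nat.sum_antidiagonal_succ' (f := fun p => (p.2 : ℂ) • u p)]
  simp

lemma Cop_assoc (h : ∀ f, D (E f) = E (D f)) (n : ℕ) (F G H : T) :
    ∑ p ∈ antidiagonal n, Cop D E p.2 (Cop D E p.1 F G) H =
      ∑ p ∈ antidiagonal n, Cop D E p.2 F (Cop D E p.1 G H) := by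
  induction n generalizing F G H with
  | zero => simp [Cop_zero, mul_assoc]
  | succ n ih =>
    have h1 : ((n : ℂ) + 1) ≠ 0 := by exact_mod_cast Nat.succ_ne_zero n
    have key : ((n : ℂ) + 1) • ∑ p ∈ antidiagonal (n + 1), Cop D E p.2 (Cop D E p.1 F G) H =
        ((n : ℂ) + 1) • ∑ p ∈ antidiagonal (n + 1), Cop D E p.2 F (Cop D E p.1 G H) := by
      rw [weight_split, weight_split]
      have a1 : ∀ p : ℕ × ℕ, ((p.1 : ℂ) + 1) • Cop D E p.2 (Cop D E (p.1 + 1) F G) H =
          Cop D E p.2 (Cop D E p.1 (D F) (E G)) H := fun p => by rw [← Cop_smul_left, Cop_succ]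
      have a2 : ∀ p : ℕ × ℕ, ((p.1 : ℂ) + 1) • Cop D E p.2 F (Cop D E (p.1 + 1) G H) =
          Cop D E p.2 F (Cop D E p.1 (D G) (E H)) := fun p => by rw [← Cop_smul_right, Cop_succ]
      simp only [a1, a2, Cop_succ, D_Cop h, E_Cop h, Cop_add_left,
        Cop_add_right, sum_add_distrib, ih]
      abel
    have := congrArg (fun z => ((n : ℂ) + 1)⁻¹ • z) key
    simpa only [smul_smul, inv_mul_cancel₀ h1, one_smul] using this

end abstract

section series

variable {R : Type*} [CommRing R] [Algebra ℂ R]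

/-- coefficientwise extension of a derivation to power series -/
noncomputable def liftD (d : Derivation ℂ R R) : Derivation ℂ R⟦X⟧ R⟦X⟧ where
  toFun F := PowerSeries.mk fun n => d (coeff n F)
  map_add' F G := by ext n; simp
  map_smul' c F := by ext n; simp
  map_one_eq_zero' := by
    ext n
    simp only [LinearMap.coe_mk, AddHom.coe_mk, coeff_mk, coeff_one, map_zero]
    split_ifs <;> simp
  leibniz' F G := by
    ext n
    simp only [LinearMap.coe_mk, AddHom.coe_mk, coeff_mk, coeff_mul, map_sum, smul_eq_mul, map_add,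
      Derivation.leibniz, sum_add_distrib]
    congr 1
    rw [← Finset.Nat.sum_antidiagonal_swap]
    simp

lemma coeff_liftD (d : Derivation ℂ R R) (F : R⟦X⟧) (n : ℕ) :
    coeff n (liftD d F) = d (coeff n F) := by
  show coeff n (PowerSeries.mk fun n => d (coeff n F)) = _
  rw [coeff_mk]

lemma liftD_comm {d e : Derivation ℂ R R} (h : ∀ f, d (e f) = e (d f)) (F : R⟦X⟧) :
    liftD d (liftD e F) = liftD e (liftD d F) := by
  ext n; simp only [coeff_liftD, h]

lemma liftD_scalar (d : Derivation ℂ R R) (r : ℂ⟦X⟧) :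
    liftD d (algebraMap ℂ⟦X⟧ R⟦X⟧ r) = 0 := by
  ext n
  rw [coeff_liftD]
  have : coeff n (algebraMap ℂ⟦X⟧ R⟦X⟧ r) = algebraMap ℂ R (coeff n r) := by
    show coeff n (PowerSeries.map (algebraMap ℂ R) r) = _
    rw [coeff_map]
  rw [this, Derivation.map_algebraMap, map_zero]

lemma liftD_X_pow (d : Derivation ℂ R R) (k : ℕ) : liftD d ((X : R⟦X⟧) ^ k) = 0 := by
  ext n
  rw [coeff_liftD, coeff_X_pow]
  split_ifs <;> simp

/-- the star product -/
noncomputable def star (d e : Derivation ℂ R R) (F G : R⟦X⟧) : R⟦X⟧ :=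
  PowerSeries.mk fun n => ∑ k ∈ range (n + 1), coeff n (X ^ k * Cop (liftD d) (liftD e) k F G)

variable (d e : Derivation ℂ R R)

lemma star_trunc (N : ℕ) (F G : R⟦X⟧) :
    (X : R⟦X⟧) ^ N ∣ star d e F G - ∑ k ∈ range N, X ^ k * Cop (liftD d) (liftD e) k F G := by
  rw [X_pow_dvd_iff]
  intro m hm
  rw [map_sub, star, coeff_mk, map_sum, sub_eq_zero]
  apply sum_subset
  · intro k hk
    simp only [mem_range] at hk ⊢
    omega
  · intro k _ hk
    simp only [mem_range] at hk
    rw [coeff_X_pow_mul', if_neg (by omega)]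

omit [Algebra ℂ R] in
lemma eq_of_dvd {F G : R⟦X⟧} (h : ∀ N, (X : R⟦X⟧) ^ N ∣ F - G) : F = G := by
  ext n
  have := (X_pow_dvd_iff.1 (h (n + 1))) n (Nat.lt_succ_self n)
  rwa [map_sub, sub_eq_zero] at this

omit [Algebra ℂ R] in
lemma square_triangle (N : ℕ) (u : ℕ × ℕ → R⟦X⟧) :
    (X : R⟦X⟧) ^ N ∣ ∑ l ∈ range N, ∑ k ∈ range N, X ^ l * (X ^ k * u (k, l)) -
      ∑ n ∈ range N, X ^ n * ∑ p ∈ antidiagonal n, u p := by
  classical
  rw [sum_comm, ← sum_product']
  have h1 : ∑ n ∈ range N, X ^ n * ∑ p ∈ antidiagonal n, u p =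
      ∑ p ∈ (range N ×ˢ range N).filter (fun p => p.1 + p.2 < N), X ^ p.2 * (X ^ p.1 * u p) := by
    rw [← sum_fiberwise_of_maps_to (s := (range N ×ˢ range N).filter (fun p => p.1 + p.2 < N))
      (t := range N) (g := fun p => p.1 + p.2) (fun p hp => by simpa using (mem_filter.1 hp).2)]
    refine sum_congr rfl fun n hn => ?_
    have hn' := mem_range.1 hn
    rw [mul_sum]
    have : ((range N ×ˢ range N).filter (fun p => p.1 + p.2 < N)).filter (fun p => p.1 + p.2 = n) =
        antidiagonal n := by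
      ext p
      simp only [mem_filter, mem_product, mem_range, HasAntidiagonal.mem_antidiagonal]
      omega
    rw [this]
    refine sum_congr rfl fun p hp => ?_
    rw [← mem_antidiagonal.1 hp]
    ring
  rw [h1, ← sum_filter_add_sum_filter_not (range N ×ˢ range N) (fun p => p.1 + p.2 < N),
    add_sub_cancel_left]
  refine dvd_sum fun p hp => ?_
  have hp' := (mem_filter.1 hp).2
  rw [← mul_assoc, ← pow_add]
  exact Dvd.dvd.mul_right (pow_dvd_pow _ (by omega)) _

lemma Cop_dvd_left (N k : ℕ) {F F' : R⟦X⟧} (G : R⟦X⟧) (h : (X : R⟦X⟧) ^ N ∣ F - F') :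
    (X : R⟦X⟧) ^ N ∣ Cop (liftD d) (liftD e) k F G - Cop (liftD d) (liftD e) k F' G := by
  obtain ⟨U, hU⟩ := h
  rw [sub_eq_iff_eq_add.1 hU, Cop_add_left, Cop_mul_left _ _ _ _ _ _ (liftD_X_pow d N),
    add_sub_cancel_right]
  exact Dvd.intro _ rfl

lemma Cop_dvd_right (N k : ℕ) (F : R⟦X⟧) {G G' : R⟦X⟧} (h : (X : R⟦X⟧) ^ N ∣ G - G') :
    (X : R⟦X⟧) ^ N ∣ Cop (liftD d) (liftD e) k F G - Cop (liftD d) (liftD e) k F G' := by
  obtain ⟨U, hU⟩ := h
  rw [sub_eq_iff_eq_add.1 hU, Cop_add_right, Cop_mul_right _ _ _ _ _ _ (liftD_X_pow e N),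
    add_sub_cancel_right]
  exact Dvd.intro _ rfl

variable {d e}

lemma star_assoc (h : ∀ f, d (e f) = e (d f)) (F G H : R⟦X⟧) :
    star d e (star d e F G) H = star d e F (star d e G H) := by
  refine eq_of_dvd fun N => ?_
  have l1 := star_trunc d e N (star d e F G) H
  have l2 : (X : R⟦X⟧) ^ N ∣
      ∑ l ∈ range N, X ^ l * Cop (liftD d) (liftD e) l (star d e F G) H -
      ∑ l ∈ range N, ∑ k ∈ range N, X ^ l * (X ^ k *
        Cop (liftD d) (liftD e) l (Cop (liftD d) (liftD e) k F G) H) := by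
    rw [← sum_sub_distrib]
    refine dvd_sum fun l _ => ?_
    rw [← mul_sum, ← mul_sub]
    refine Dvd.dvd.mul_left ?_ _
    have := Cop_dvd_left d e N l H (star_trunc d e N F G)
    rw [Cop_sum_left] at this
    simpa only [Cop_mul_left _ _ _ _ _ _ (liftD_X_pow d _)] using this
  have l3 := square_triangle N
    (fun p => Cop (liftD d) (liftD e) p.2 (Cop (liftD d) (liftD e) p.1 F G) H)
  have r1 := star_trunc d e N F (star d e G H)
  have r2 : (X : R⟦X⟧) ^ N ∣
      ∑ l ∈ range N, X ^ l * Cop (liftD d) (liftD e) l F (star d e G H) -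
      ∑ l ∈ range N, ∑ k ∈ range N, X ^ l * (X ^ k *
        Cop (liftD d) (liftD e) l F (Cop (liftD d) (liftD e) k G H)) := by
    rw [← sum_sub_distrib]
    refine dvd_sum fun l _ => ?_
    rw [← mul_sum, ← mul_sub]
    refine Dvd.dvd.mul_left ?_ _
    have := Cop_dvd_right d e N l F (star_trunc d e N G H)
    rw [Cop_sum_right] at this
    simpa only [Cop_mul_right _ _ _ _ _ _ (liftD_X_pow e _)] using this
  have r3 := square_triangle N
    (fun p => Cop (liftD d) (liftD e) p.2 F (Cop (liftD d) (liftD e) p.1 G H))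
  simp only [Cop_assoc (liftD_comm h)] at l3
  have := ((l1.add l2).add l3).sub ((r1.add r2).add r3)
  have e1 : ∀ a b c s a' b' c' : R⟦X⟧,
      (a - b + (b - c) + (c - s)) - (a' - b' + (b' - c') + (c' - s)) = a - a' := by
    intros; ring
  rwa [e1] at this

variable (d e)

lemma star_add_left (F F' G : R⟦X⟧) : star d e (F + F') G = star d e F G + star d e F' G := by
  ext n; simp only [star, coeff_mk, Cop_add_left, mul_add, map_add, sum_add_distrib]

lemma star_add_right (F G G' : R⟦X⟧) : star d e F (G + G') = star d e F G + star d e F G' := by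
  ext n; simp only [star, coeff_mk, Cop_add_right, mul_add, map_add, sum_add_distrib]

lemma star_const_left (c F G : R⟦X⟧) (hc : liftD d c = 0) :
    star d e (c * F) G = c * star d e F G := by
  refine eq_of_dvd fun N => ?_
  have l1 := star_trunc d e N (c * F) G
  have l2 := (star_trunc d e N F G).mul_left c
  simp only [Cop_mul_left _ _ _ _ _ _ hc] at l1
  have := l1.sub l2
  rw [mul_sub, mul_sum] at this
  simp only [mul_left_comm c] at this
  simpa using this

lemma star_const_right (c F G : R⟦X⟧) (hc : liftD e c = 0) :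
    star d e F (c * G) = c * star d e F G := by
  refine eq_of_dvd fun N => ?_
  have l1 := star_trunc d e N F (c * G)
  have l2 := (star_trunc d e N F G).mul_left c
  simp only [Cop_mul_right _ _ _ _ _ _ hc] at l1
  have := l1.sub l2
  rw [mul_sub, mul_sum] at this
  simp only [mul_left_comm c] at this
  simpa using this

lemma star_one_left (G : R⟦X⟧) : star d e 1 G = G := by
  ext n
  rw [star, coeff_mk, sum_range_succ']
  have : ∀ k, Cop (liftD d) (liftD e) (k + 1) 1 G = 0 := fun k => by
    simp only [Cop, Function.iterate_succ_apply, Derivation.map_one_eq_zero, iter_zero, zero_mul,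
      smul_zero]
  simp [this, Cop_zero]

lemma star_one_right (F : R⟦X⟧) : star d e F 1 = F := by
  ext n
  rw [star, coeff_mk, sum_range_succ']
  have : ∀ k, Cop (liftD d) (liftD e) (k + 1) F 1 = 0 := fun k => by
    simp only [Cop, Function.iterate_succ_apply, Derivation.map_one_eq_zero, iter_zero, mul_zero,
      smul_zero]
  simp [this, Cop_zero]

lemma star_zero_left (G : R⟦X⟧) : star d e 0 G = 0 := by
  ext n; simp [star, Cop_zero_left]

lemma star_zero_right (F : R⟦X⟧) : star d e F 0 = 0 := by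
  ext n; simp [star, Cop_zero_right]

lemma coeff_zero_star (F G : R⟦X⟧) : coeff 0 (star d e F G) = coeff 0 F * coeff 0 G := by
  simp [star, Cop_zero]

lemma coeff_one_star (F G : R⟦X⟧) :
    coeff 1 (star d e F G) = coeff 1 (F * G) + d (coeff 0 F) * e (coeff 0 G) := by
  rw [star, coeff_mk, sum_range_succ, sum_range_one, pow_zero, one_mul, Cop_zero]
  congr 1
  have := coeff_X_pow_mul (Cop (liftD d) (liftD e) 1 F G) 1 0
  rw [zero_add] at this
  rw [this]
  simp only [Cop, Nat.factorial_one, Nat.cast_one, inv_one, one_smul, Function.iterate_one]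
  rw [coeff_zero_eq_constantCoeff_apply, map_mul, ← coeff_zero_eq_constantCoeff_apply,
    ← coeff_zero_eq_constantCoeff_apply, coeff_liftD, coeff_liftD]

end series

end Pool.Agent.MP_86c931_ag.H30
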