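import Pool.Agent.MP_86c931_ag.H30.Star

/-! The star product algebra. -/

namespace Pool.Agent.MP_86c931_ag.H30

open Finset PowerSeries

variable {R : Type} [CommRing R] [Algebra ℂ R]

/-- two commuting derivations -/
structure Pair (R : Type) [CommRing R] [Algebra ℂ R] where
  /-- first derivation -/
  d : Derivation ℂ R R
  /-- second derivation -/
  e : Derivation ℂ R R
  comm : ∀ f, d (e f) = e (d f)

/-- power series with the star product -/
def St (_p : Pair R) : Type := R⟦X⟧

variable (p : Pair R)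

noncomputable instance : AddCommGroup (St p) := inferInstanceAs (AddCommGroup R⟦X⟧)

noncomputable instance : Module ℂ⟦X⟧ (St p) := inferInstanceAs (Module ℂ⟦X⟧ R⟦X⟧)

/-- the underlying series -/
def St.ser : St p ≃ R⟦X⟧ := Equiv.refl _

noncomputable instance : Ring (St p) :=
  { (inferInstance : AddCommGroup (St p)) with
    mul := star p.d p.e
    one := (1 : R⟦X⟧)
    mul_assoc := star_assoc p.comm
    one_mul := star_one_left p.d p.e
    mul_one := star_one_right p.d p.e
    left_distrib := star_add_right p.d p.e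
    right_distrib := star_add_left p.d p.e
    zero_mul := star_zero_left p.d p.e
    mul_zero := star_zero_right p.d p.e }

noncomputable instance : Algebra ℂ⟦X⟧ (St p) :=
  Algebra.ofModule
    (fun r F G => star_const_left p.d p.e (algebraMap ℂ⟦X⟧ R⟦X⟧ r) F G (liftD_scalar p.d r))
    (fun r F G => star_const_right p.d p.e (algebraMap ℂ⟦X⟧ R⟦X⟧ r) F G (liftD_scalar p.e r))

variable {p}

lemma St.ser_mul (F G : St p) : St.ser p (F * G) = star p.d p.e (St.ser p F) (St.ser p G) := rfl
lemma St.ser_one : St.ser p 1 = 1 := rfl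
lemma St.ser_zero : St.ser p 0 = 0 := rfl
lemma St.ser_add (F G : St p) : St.ser p (F + G) = St.ser p F + St.ser p G := rfl
lemma St.ser_sub (F G : St p) : St.ser p (F - G) = St.ser p F - St.ser p G := rfl
lemma St.ser_smul (r : ℂ⟦X⟧) (F : St p) :
    St.ser p (r • F) = PowerSeries.map (algebraMap ℂ R) r * St.ser p F := rfl

lemma St.ser_algebraMap (r : ℂ⟦X⟧) :
    St.ser p (algebraMap ℂ⟦X⟧ (St p) r) = PowerSeries.map (algebraMap ℂ R) r := by
  rw [Algebra.algebraMap_eq_smul_one, St.ser_smul, St.ser_one, mul_one]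

lemma St.dv_iff (n : ℕ) (F : St p) :
    (∃ c, F = (X : ℂ⟦X⟧) ^ n • c) ↔ ∀ m < n, coeff m (St.ser p F) = 0 := by
  rw [← X_pow_dvd_iff]
  constructor
  · rintro ⟨c, rfl⟩
    exact ⟨St.ser p c, by rw [St.ser_smul, map_pow, map_X]⟩
  · rintro ⟨c, hc⟩
    refine ⟨(St.ser p).symm c, (St.ser p).injective ?_⟩
    rw [St.ser_smul, map_pow, map_X, hc, Equiv.apply_symm_apply]

variable (p) in
lemma St.flat : Module.Flat ℂ⟦X⟧ (St p) := by
  rw [Module.Flat.flat_iff_torsion_eq_bot_of_isBezout, eq_bot_iff]
  rintro F ⟨⟨r, hr⟩, h⟩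
  obtain ⟨n, u, rfl⟩ := IsDiscreteValuationRing.eq_unit_mul_pow_irreducible
    (nonZeroDivisors.ne_zero hr) (PowerSeries.X_irreducible (R := ℂ))
  have h1 : (X : ℂ⟦X⟧) ^ n • F = 0 := by
    have h' : ((u : ℂ⟦X⟧) * X ^ n) • F = 0 := h
    rw [mul_smul] at h'
    exact (u.isUnit.smul_eq_zero).1 h'
  have h2 := congrArg (St.ser p) h1
  rw [St.ser_smul, map_pow, map_X, St.ser_zero] at h2
  rw [Submodule.mem_bot]
  apply (St.ser p).injective
  ext k
  have := congrArg (coeff (k + n)) h2
  rwa [coeff_X_pow_mul, map_zero] at this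

variable (p) in
/-- reduction modulo `h` -/
noncomputable def St.red : St p →+* R where
  toFun F := coeff 0 (St.ser p F)
  map_one' := by rw [St.ser_one]; simp
  map_mul' F G := by rw [St.ser_mul, coeff_zero_star]
  map_zero' := by rw [St.ser_zero, map_zero]
  map_add' F G := by rw [St.ser_add, map_add]

lemma St.red_apply (F : St p) : St.red p F = coeff 0 (St.ser p F) := rfl

lemma St.red_comm (a b c : St p) (h : a * b - b * a = (X : ℂ⟦X⟧) • c) :
    St.red p c = p.d (St.red p a) * p.e (St.red p b) - p.e (St.red p a) * p.d (St.red p b) := by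
  have h2 := congrArg (fun F => coeff 1 (St.ser p F)) h
  simp only [St.ser_sub, St.ser_mul, St.ser_smul, map_X, map_sub, coeff_one_star] at h2
  have h3 := coeff_X_pow_mul (St.ser p c) 1 0
  rw [pow_one, zero_add] at h3
  rw [h3, mul_comm (St.ser p b)] at h2
  simp only [St.red_apply]
  rw [← h2]
  ring

section functor

variable {R' : Type} [CommRing R'] [Algebra ℂ R'] {p' : Pair R'} (φ : R →ₐ[ℂ] R')

lemma map_liftD {d : Derivation ℂ R R} {d' : Derivation ℂ R' R'} (hd : ∀ f, φ (d f) = d' (φ f))
    (k : ℕ) (F : R⟦X⟧) :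
    PowerSeries.map (φ : R →+* R') ((liftD d)^[k] F) =
      (liftD d')^[k] (PowerSeries.map (φ : R →+* R') F) := by
  induction k generalizing F with
  | zero => rfl
  | succ k ih =>
    rw [Function.iterate_succ_apply, Function.iterate_succ_apply, ih]
    congr 1
    ext n
    simp only [coeff_map, coeff_liftD]
    exact hd _

lemma map_star (hd : ∀ f, φ (p.d f) = p'.d (φ f)) (he : ∀ f, φ (p.e f) = p'.e (φ f))
    (F G : R⟦X⟧) :
    PowerSeries.map (φ : R →+* R') (star p.d p.e F G) =
      star p'.d p'.e (PowerSeries.map (φ : R →+* R') F) (PowerSeries.map (φ : R →+* R') G) := by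
  ext n
  simp only [star, coeff_map, coeff_mk, map_sum]
  refine sum_congr rfl fun k _ => ?_
  rw [← coeff_map, map_mul, map_pow, map_X]
  congr 2
  ext m
  simp only [Cop, ← map_liftD φ hd, ← map_liftD φ he, ← map_mul, coeff_map, coeff_smul]
  exact map_smul φ _ _

/-- functoriality of the star product algebra -/
noncomputable def St.map (hd : ∀ f, φ (p.d f) = p'.d (φ f)) (he : ∀ f, φ (p.e f) = p'.e (φ f)) :
    St p →ₐ[ℂ⟦X⟧] St p' where
  toFun F := (St.ser p').symm (PowerSeries.map (φ : R →+* R') (St.ser p F))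
  map_one' := by
    apply (St.ser p').injective
    rw [Equiv.apply_symm_apply, St.ser_one, St.ser_one, map_one]
  map_mul' F G := by
    apply (St.ser p').injective
    rw [Equiv.apply_symm_apply, St.ser_mul, St.ser_mul, map_star φ hd he, Equiv.apply_symm_apply,
      Equiv.apply_symm_apply]
  map_zero' := by
    apply (St.ser p').injective
    rw [Equiv.apply_symm_apply, St.ser_zero, St.ser_zero, map_zero]
  map_add' F G := by
    apply (St.ser p').injective
    rw [Equiv.apply_symm_apply, St.ser_add, St.ser_add, map_add, Equiv.apply_symm_apply,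
      Equiv.apply_symm_apply]
  commutes' r := by
    apply (St.ser p').injective
    rw [Equiv.apply_symm_apply, St.ser_algebraMap, St.ser_algebraMap]
    ext n
    simp

lemma St.coeff_map (hd : ∀ f, φ (p.d f) = p'.d (φ f)) (he : ∀ f, φ (p.e f) = p'.e (φ f))
    (F : St p) (n : ℕ) :
    coeff n (St.ser p' (St.map φ hd he F)) = φ (coeff n (St.ser p F)) := by
  show coeff n (PowerSeries.map (φ : R →+* R') (St.ser p F)) = _
  rw [PowerSeries.coeff_map]
  rfl

end functor

end Pool.Agent.MP_86c931_ag.H30
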