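import Pool.Agent.MP_86c931_ag.H30.Lift

/-! Vanishing of the zeroth Hochschild homology. -/

namespace Pool.Agent.MP_86c931_ag.H30

open AlgebraicGeometry CategoryTheory TopologicalSpace Opposite
open scoped PowerSeries TensorProduct

lemma exists_antider (i : Fin 2) (f : P) : ∃ g : P, MvPolynomial.pderiv i g = f := by
  induction f using MvPolynomial.induction_on' with
  | monomial s c =>
    refine ⟨MvPolynomial.monomial (s + Finsupp.single i 1) (c / ((s i : ℂ) + 1)), ?_⟩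
    have h1 : ((s i : ℂ) + 1) ≠ 0 := by exact_mod_cast Nat.succ_ne_zero (s i)
    rw [MvPolynomial.pderiv_monomial, add_tsub_cancel_right]
    congr 1
    simp only [Finsupp.coe_add, Pi.add_apply, Finsupp.single_eq_same]
    push_cast
    field_simp
  | add p q hp hq =>
    obtain ⟨g, hg⟩ := hp
    obtain ⟨g', hg'⟩ := hq
    exact ⟨g + g', by rw [map_add, hg, hg']⟩

lemma br_X0 (g : P) : br (MvPolynomial.X 0) g = MvPolynomial.pderiv 1 g := by
  simp [br, MvPolynomial.pderiv_X]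

namespace Quantization

variable (Q : Quantization)

lemma one_step (x : Q.B.obj (op ⊤)) (hx : Q.π ⊤ x = fn (P := PC) (MvPolynomial.X 0) ⊤)
    (a : Q.B.obj (op ⊤)) : ∃ b a', (PowerSeries.X : ℂ⟦X⟧) • a =
      (x * b - b * x) + (PowerSeries.X : ℂ⟦X⟧) • (PowerSeries.X : ℂ⟦X⟧) • a' := by
  obtain ⟨f, hf⟩ := (fn_top_bij (A := PC)).2 (Q.π ⊤ a)
  obtain ⟨g, hg⟩ := exists_antider 1 f
  obtain ⟨b, hb⟩ := Q.π_top_surjective (fn (P := PC) g ⊤)
  obtain ⟨c, hc⟩ := (Q.π_ker ⊤ (x * b - b * x)).1 (by rw [map_sub, map_mul, map_mul, mul_comm, sub_self])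
  have h1 := Q.poisson ⊤ x b c _ _ hx hb hc
  rw [br_X0, hg] at h1
  obtain ⟨e, he⟩ := (Q.π_ker ⊤ (a - c)).1 (by rw [map_sub, h1, ← hf]; exact sub_self _)
  exact ⟨b, e, by rw [hc, ← he, smul_sub, add_sub_cancel]⟩

lemma commutator_surj (x : Q.B.obj (op ⊤)) (hx : Q.π ⊤ x = fn (P := PC) (MvPolynomial.X 0) ⊤)
    (a : Q.B.obj (op ⊤)) : ∃ b, (PowerSeries.X : ℂ⟦X⟧) • a = x * b - b * x := by
  choose β α h using Q.one_step x hx
  let u : ℕ → Q.B.obj (op ⊤) := fun n =>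
    ∑ k ∈ Finset.range n, (PowerSeries.X : ℂ⟦X⟧) ^ k • β (α^[k] a)
  have hu : ∀ n, (PowerSeries.X : ℂ⟦X⟧) • a =
      (x * u n - u n * x) + (PowerSeries.X : ℂ⟦X⟧) ^ n • (PowerSeries.X : ℂ⟦X⟧) • α^[n] a := by
    intro n
    induction n with
    | zero => simp [u]
    | succ n ih =>
      rw [ih, h (α^[n] a)]
      simp only [u, Finset.sum_range_succ, mul_add, add_mul, mul_smul_comm, smul_mul_assoc,
        Function.iterate_succ_apply', smul_add, smul_sub, pow_succ, mul_smul]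
      abel
  obtain ⟨t, ht, -⟩ := Q.top_complete u (fun n => ⟨-β (α^[n] a), by
    simp [u, Finset.sum_range_succ]⟩)
  obtain ⟨z, -, hz⟩ := Q.top_complete (fun _ => 0) (fun n => ⟨0, by simp⟩)
  refine ⟨t, ?_⟩
  have h0 : (0 : Q.B.obj (op ⊤)) = z := hz 0 fun n => ⟨0, by simp⟩
  have h1 : (PowerSeries.X : ℂ⟦X⟧) • a - (x * t - t * x) = z := hz _ fun n => by
    obtain ⟨c, hc⟩ := ht n
    refine ⟨(PowerSeries.X : ℂ⟦X⟧) • α^[n] a - (x * c - c * x), ?_⟩
    rw [sub_zero, hu n, sub_eq_iff_eq_add.1 hc]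
    simp only [mul_add, add_mul, mul_smul_comm, smul_mul_assoc, smul_sub]
    abel
  rw [← sub_eq_zero, h1, h0]

theorem hh0_subsingleton : Subsingleton (HH0 (Q.B.obj (op ⊤))) := by
  obtain ⟨x, hx⟩ := Q.π_top_surjective (fn (P := PC) (MvPolynomial.X 0) ⊤)
  rw [HH0, Submodule.Quotient.subsingleton_iff, eq_top_iff]
  rintro z -
  induction z using TensorProduct.induction_on with
  | zero => exact Submodule.zero_mem _
  | add z w hz hw => exact Submodule.add_mem _ hz hw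
  | tmul k a =>
    obtain ⟨b, hb⟩ := Q.commutator_surj x hx a
    have hu : IsUnit (algebraMap ℂ⟦X⟧ K PowerSeries.X) :=
      IsLocalization.Away.algebraMap_isUnit (PowerSeries.X : ℂ⟦X⟧)
    obtain ⟨v, hv⟩ := hu.exists_left_inv
    have e : k ⊗ₜ[ℂ⟦X⟧] a = (k * v) • (((1 : K) ⊗ₜ[ℂ⟦X⟧] x) * ((1 : K) ⊗ₜ[ℂ⟦X⟧] b) -
        ((1 : K) ⊗ₜ[ℂ⟦X⟧] b) * ((1 : K) ⊗ₜ[ℂ⟦X⟧] x)) := by
      rw [Algebra.TensorProduct.tmul_mul_tmul, Algebra.TensorProduct.tmul_mul_tmul, mul_one,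
        ← TensorProduct.tmul_sub, ← hb, ← TensorProduct.smul_tmul, TensorProduct.smul_tmul',
        Algebra.smul_def (PowerSeries.X : ℂ⟦X⟧), mul_one, smul_eq_mul, mul_assoc, hv, mul_one]
    rw [e]
    exact Submodule.smul_mem _ _ (Submodule.subset_span ⟨_, _, rfl⟩)

end Quantization

end Pool.Agent.MP_86c931_ag.H30
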